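import Mathlib

namespace Pool.Agent.Work.MP_17736e_nt

open Finset Real

theorem pow_bound (j : ℕ) (hj : 8 ≤ j) : 15 * (j + 1) ≤ 2 ^ j := by
  induction j, hj using Nat.le_induction with
  | base => norm_num
  | succ n hn ih => rw [pow_succ]; omega

/-- primes in the block `(4^j, 4^(j+1)]` -/
theorem theta_block (j : ℕ) (hj : 8 ≤ j) :
    (4 : ℝ) ^ j ≤ ∑ p ∈ (Ioc (4 ^ j) (4 ^ (j + 1))).filter Nat.Prime, Real.log p := by
  have h1 := Chebyshev.theta_ge (4 ^ (j + 1))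
  have h2 := Chebyshev.theta_le_log4_mul_x (x := (4 : ℝ) ^ j) (by positivity)
  have hθ : ∀ n : ℕ, Chebyshev.theta (n : ℝ) = ∑ p ∈ (Ioc 0 n).filter Nat.Prime, Real.log p := by
    intro n
    unfold Chebyshev.theta
    rw [Nat.floor_natCast]
  have h3 : Chebyshev.theta ((4 ^ (j + 1) : ℕ) : ℝ) - Chebyshev.theta ((4 ^ j : ℕ) : ℝ)
      = ∑ p ∈ (Ioc (4 ^ j) (4 ^ (j + 1))).filter Nat.Prime, Real.log p := by
    rw [hθ, hθ, sub_eq_iff_eq_add]
    rw [← Finset.sum_union]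
    · congr 1
      ext p
      simp only [Finset.mem_filter, Finset.mem_Ioc, Finset.mem_union]
      have : 4 ^ j ≤ 4 ^ (j + 1) := Nat.pow_le_pow_right (by norm_num) (by omega)
      constructor
      · rintro ⟨⟨a, b⟩, c⟩
        by_cases h : p ≤ 4 ^ j
        · right; exact ⟨⟨a, h⟩, c⟩
        · left; exact ⟨⟨by omega, b⟩, c⟩
      · rintro (⟨⟨a, b⟩, c⟩ | ⟨⟨a, b⟩, c⟩)
        · exact ⟨⟨by omega, b⟩, c⟩
        · exact ⟨⟨a, by omega⟩, c⟩
    · rw [Finset.disjoint_left]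
      intro p hp hq
      simp only [Finset.mem_filter, Finset.mem_Ioc] at hp hq
      omega
  rw [← h3]
  push_cast at h1 h2 ⊢
  have hlog2 : 0.6931471803 < Real.log 2 := Real.log_two_gt_d9
  have hlog2' : Real.log 2 < 0.6931471808 := Real.log_two_lt_d9
  have hlog4 : Real.log 4 = 2 * Real.log 2 := by
    rw [show (4 : ℝ) = 2 ^ 2 by norm_num, Real.log_pow]; norm_num
  have hsqrt : √((4 : ℝ) ^ (j + 1)) = 2 ^ (j + 1) := by
    rw [show (4 : ℝ) ^ (j + 1) = (2 ^ (j + 1)) ^ 2 by rw [← pow_mul, mul_comm, pow_mul]; norm_num]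
    exact Real.sqrt_sq (by positivity)
  have hlogp : Real.log ((4 : ℝ) ^ (j + 1)) = (j + 1) * (2 * Real.log 2) := by
    rw [Real.log_pow, hlog4]; push_cast; ring
  have hlogp1 : Real.log ((4 : ℝ) ^ (j + 1) + 1) ≤ Real.log 2 + (j + 1) * (2 * Real.log 2) := by
    rw [← hlogp, ← Real.log_mul (by norm_num) (by positivity)]
    refine Real.log_le_log (by positivity) ?_
    have : (1 : ℝ) ≤ 4 ^ (j + 1) := one_le_pow₀ (by norm_num)
    linarith
  rw [hsqrt, hlogp] at h1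
  rw [hlog4] at h2
  have hb : (15 : ℝ) * (j + 1) ≤ 2 ^ j := by exact_mod_cast pow_bound j hj
  set X : ℝ := (2 : ℝ) ^ j with hX
  have h4X : (4 : ℝ) ^ j = X ^ 2 := by
    rw [hX, ← pow_mul, mul_comm, pow_mul]; norm_num
  have h4X' : (4 : ℝ) ^ (j + 1) = 4 * X ^ 2 := by rw [pow_succ, h4X]; ring
  have h2X : (2 : ℝ) ^ (j + 1) = 2 * X := by rw [pow_succ]; ring
  rw [h4X', h2X] at h1
  rw [h4X'] at hlogp1
  rw [h4X] at h2
  rw [h4X, h4X']
  have hX256 : (256 : ℝ) ≤ X := by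
    rw [hX]
    calc (256 : ℝ) = 2 ^ 8 := by norm_num
      _ ≤ 2 ^ j := pow_le_pow_right₀ (by norm_num) hj
  have hj1 : (0 : ℝ) ≤ (j : ℝ) + 1 := by positivity
  have e1 : ((j : ℝ) + 1) * (2 * Real.log 2) ≤ X / 15 * (2 * 0.6931471808) := by
    have : ((j : ℝ) + 1) ≤ X / 15 := by linarith
    exact mul_le_mul this (by linarith) (by positivity) (by positivity)
  have e2 : 2 * (2 * X) * (((j : ℝ) + 1) * (2 * Real.log 2))
      ≤ 2 * (2 * X) * (X / 15 * (2 * 0.6931471808)) :=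
    mul_le_mul_of_nonneg_left e1 (by positivity)
  have e3 : (4 * X ^ 2) * Real.log 2 ≥ (4 * X ^ 2) * Real.log 2 := le_refl _
  nlinarith [mul_nonneg (by positivity : (0 : ℝ) ≤ X) (by linarith : (0 : ℝ) ≤ X - 256)]

theorem recip_block (j : ℕ) (hj : 8 ≤ j) :
    1 / (6 * ((j : ℝ) + 1)) ≤ ∑ p ∈ (Ioc (4 ^ j) (4 ^ (j + 1))).filter Nat.Prime, (1 / (p : ℝ)) := by
  have h := theta_block j hj
  have hlog2' : Real.log 2 < 0.6931471808 := Real.log_two_lt_d9
  have hlog2 : 0.6931471803 < Real.log 2 := Real.log_two_gt_d9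
  have hlog4 : Real.log 4 = 2 * Real.log 2 := by
    rw [show (4 : ℝ) = 2 ^ 2 by norm_num, Real.log_pow]; norm_num
  have hterm : ∀ p ∈ (Ioc (4 ^ j) (4 ^ (j + 1))).filter Nat.Prime,
      Real.log p / (4 ^ (j + 1) * (((j : ℝ) + 1) * Real.log 4)) ≤ 1 / (p : ℝ) := by
    intro p hp
    rw [Finset.mem_filter, Finset.mem_Ioc] at hp
    have hp0 : (0 : ℝ) < p := by exact_mod_cast hp.2.pos
    have hp1 : (p : ℝ) ≤ 4 ^ (j + 1) := by exact_mod_cast hp.1.2
    have hl : Real.log p ≤ ((j : ℝ) + 1) * Real.log 4 := by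
      have := Real.log_le_log hp0 hp1
      rw [Real.log_pow] at this
      push_cast at this
      exact this
    have hl0 : 0 ≤ Real.log p := Real.log_natCast_nonneg p
    rw [div_le_div_iff₀ (by positivity) hp0]
    calc Real.log p * p ≤ (((j : ℝ) + 1) * Real.log 4) * 4 ^ (j + 1) :=
          mul_le_mul hl hp1 hp0.le (by positivity)
      _ = 1 * (4 ^ (j + 1) * (((j : ℝ) + 1) * Real.log 4)) := by ring
  refine le_trans ?_ (Finset.sum_le_sum hterm)
  rw [← Finset.sum_div, le_div_iff₀ (by positivity)]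
  refine le_trans ?_ h
  rw [hlog4, pow_succ]
  have hj1 : (0 : ℝ) < (j : ℝ) + 1 := by positivity
  have : 1 / (6 * ((j : ℝ) + 1)) * (4 ^ j * 4 * (((j : ℝ) + 1) * (2 * Real.log 2)))
      = 4 ^ j * (4 * 2 * Real.log 2 / 6) := by
    field_simp
  rw [this]
  have h4 : (0 : ℝ) < 4 ^ j := by positivity
  nlinarith

theorem recip_blocks (a b : ℕ) (ha : 8 ≤ a) (hab : a ≤ b) :
    (Real.log ((b + 1 : ℝ) / (a + 1))) / 6
      ≤ ∑ p ∈ (Ioc (4 ^ a) (4 ^ b)).filter Nat.Prime, (1 / (p : ℝ)) := by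
  induction b, hab using Nat.le_induction with
  | base =>
    rw [div_self (by positivity)]
    simp
  | succ b hb ih =>
    have h1 := recip_block b (by omega)
    have hsplit : ∑ p ∈ (Ioc (4 ^ a) (4 ^ (b + 1))).filter Nat.Prime, (1 / (p : ℝ))
        = ∑ p ∈ (Ioc (4 ^ a) (4 ^ b)).filter Nat.Prime, (1 / (p : ℝ))
          + ∑ p ∈ (Ioc (4 ^ b) (4 ^ (b + 1))).filter Nat.Prime, (1 / (p : ℝ)) := by
      rw [← Finset.sum_union]
      · congr 1
        ext p
        simp only [Finset.mem_filter, Finset.mem_Ioc, Finset.mem_union]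
        have h1 : 4 ^ b ≤ 4 ^ (b + 1) := Nat.pow_le_pow_right (by norm_num) (by omega)
        have h2 : 4 ^ a ≤ 4 ^ b := Nat.pow_le_pow_right (by norm_num) hb
        constructor
        · rintro ⟨⟨u, v⟩, w⟩
          by_cases h : p ≤ 4 ^ b
          · left; exact ⟨⟨u, h⟩, w⟩
          · right; exact ⟨⟨by omega, v⟩, w⟩
        · rintro (⟨⟨u, v⟩, w⟩ | ⟨⟨u, v⟩, w⟩)
          · exact ⟨⟨u, by omega⟩, w⟩
          · exact ⟨⟨by omega, v⟩, w⟩
      · rw [Finset.disjoint_left]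
        intro p hp hq
        simp only [Finset.mem_filter, Finset.mem_Ioc] at hp hq
        omega
    rw [hsplit]
    have hlog : Real.log (((b + 1 : ℕ) + 1 : ℝ) / (a + 1))
        = Real.log ((b + 1 : ℝ) / (a + 1)) + Real.log (((b : ℝ) + 2) / (b + 1)) := by
      rw [← Real.log_mul (by positivity) (by positivity)]
      congr 1
      push_cast
      field_simp
      ring
    have hlog2 : Real.log (((b : ℝ) + 2) / (b + 1)) ≤ 1 / ((b : ℝ) + 1) := by
      have := Real.log_le_sub_one_of_pos (x := ((b : ℝ) + 2) / (b + 1)) (by positivity)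
      have e : ((b : ℝ) + 2) / (b + 1) - 1 = 1 / ((b : ℝ) + 1) := by field_simp; ring
      linarith
    have h6 : 1 / (6 * ((b : ℝ) + 1)) = 1 / ((b : ℝ) + 1) / 6 := by field_simp
    rw [hlog]
    rw [h6] at h1
    linarith

theorem prime_sum_lower (K : ℕ) (hK : 2 ≤ K) :
    Real.log ((K : ℝ) / 2) / 6
      ≤ ∑ p ∈ (Ioc (4 ^ (K ^ 3)) (4 ^ (K ^ 4))).filter Nat.Prime, (1 / (p : ℝ)) := by
  have h8 : 8 ≤ K ^ 3 := by
    calc 8 = 2 ^ 3 := by norm_num
      _ ≤ K ^ 3 := Nat.pow_le_pow_left hK 3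
  have h := recip_blocks (K ^ 3) (K ^ 4) h8 (Nat.pow_le_pow_right (by omega) (by norm_num))
  refine le_trans ?_ h
  have hK0 : (2 : ℝ) ≤ K := by exact_mod_cast hK
  refine div_le_div_of_nonneg_right (Real.log_le_log (by positivity) ?_) (by norm_num)
  rw [div_le_div_iff₀ (by norm_num) (by positivity)]
  push_cast
  nlinarith [pow_pos (by linarith : (0 : ℝ) < K) 3, pow_pos (by linarith : (0 : ℝ) < K) 4,
    sq_nonneg ((K : ℝ) ^ 2)]

end Pool.Agent.Work.MP_17736e_nt
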