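import Mathlib
import Pool.Agent.Work.MP_17736e_nt.PrimeSum

namespace Pool.Agent.Work.MP_17736e_nt

open Finset Real

theorem sum_rpow_le (M : ℕ) :
    ∑ n ∈ Icc 1 M, (n : ℝ) ^ (-(11 / 12 : ℝ)) ≤ 12 * (M : ℝ) ^ ((1 / 12 : ℝ)) := by
  induction M with
  | zero =>
    rw [show Icc 1 0 = (∅ : Finset ℕ) from rfl, Finset.sum_empty]
    positivity
  | succ M ih =>
    rw [Finset.sum_Icc_succ_top (by omega)]
    have hM : (0 : ℝ) < (M : ℝ) + 1 := by positivity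
    have hb : (1 + (-(1 / ((M : ℝ) + 1)))) ^ (1 / 12 : ℝ) ≤ 1 + (1 / 12) * (-(1 / ((M : ℝ) + 1))) := by
      apply rpow_one_add_le_one_add_mul_self _ (by norm_num) (by norm_num)
      have : 1 / ((M : ℝ) + 1) ≤ 1 := by
        rw [div_le_one hM]; linarith [(Nat.cast_nonneg M : (0 : ℝ) ≤ M)]
      linarith
    have e1 : (1 + (-(1 / ((M : ℝ) + 1)))) = (M : ℝ) / (M + 1) := by field_simp; ring
    rw [e1, Real.div_rpow (by positivity) hM.le, div_le_iff₀ (by positivity)] at hb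
    have e2 : ((M : ℝ) + 1) ^ (-(11 / 12 : ℝ)) = ((M : ℝ) + 1) ^ (1 / 12 : ℝ) * (1 / ((M : ℝ) + 1)) := by
      rw [show (-(11 / 12 : ℝ)) = 1 / 12 - 1 by norm_num, Real.rpow_sub hM, Real.rpow_one]
      ring
    push_cast
    rw [e2]
    nlinarith

/-- Rankin's trick for smooth numbers. -/
theorem smooth_tail (L W : ℕ) (hW : 0 < W) (S : Finset ℕ)
    (hS : ∀ D ∈ S, D ∈ Nat.smoothNumbers L ∧ W < D) :
    ∑ D ∈ S, (1 / (D : ℝ)) ≤ (W : ℝ) ^ (-(1 / 12 : ℝ)) * Real.exp (36 * (L : ℝ) ^ (1 / 12 : ℝ)) := by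
  classical
  let f : ℕ →* ℝ :=
    { toFun := fun n => (n : ℝ) ^ (-(11 / 12 : ℝ))
      map_one' := by simp
      map_mul' := fun a b => by
        push_cast
        exact Real.mul_rpow (by positivity) (by positivity) }
  have hf : ∀ n : ℕ, f n = (n : ℝ) ^ (-(11 / 12 : ℝ)) := fun n => rfl
  have hf23 : ∀ {p : ℕ}, p.Prime → f p ≤ 2 / 3 := by
    intro p hp
    rw [hf]
    have h2 : (2 : ℝ) ≤ p := by exact_mod_cast hp.two_le
    have h1 : (p : ℝ) ^ (-(11 / 12 : ℝ)) ≤ (2 : ℝ) ^ (-(11 / 12 : ℝ)) :=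
      Real.rpow_le_rpow_of_nonpos (by norm_num) h2 (by norm_num)
    refine le_trans h1 ?_
    rw [Real.rpow_neg (by norm_num), inv_le_comm₀ (by positivity) (by norm_num)]
    have : ((2 / 3 : ℝ)⁻¹) = (3 / 2) := by norm_num
    rw [this]
    have h3 : ((3 / 2 : ℝ) ^ (12 : ℕ)) ≤ (2 : ℝ) ^ (11 : ℕ) := by norm_num
    have h4 : ((3 / 2 : ℝ) ^ (12 : ℕ)) ^ (1 / 12 : ℝ) ≤ ((2 : ℝ) ^ (11 : ℕ)) ^ (1 / 12 : ℝ) :=
      Real.rpow_le_rpow (by positivity) h3 (by norm_num)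
    rw [← Real.rpow_natCast, ← Real.rpow_natCast, ← Real.rpow_mul (by norm_num),
      ← Real.rpow_mul (by norm_num)] at h4
    norm_num at h4
    exact h4
  have hfnn : ∀ n, 0 ≤ f n := fun n => by rw [hf]; positivity
  have hlt : ∀ {p : ℕ}, p.Prime → ‖f p‖ < 1 := by
    intro p hp
    rw [Real.norm_of_nonneg (hfnn p)]
    linarith [hf23 hp]
  obtain ⟨hsum, hhas⟩ := EulerProduct.summable_and_hasSum_smoothNumbers_prod_primesBelow_geometric
    hlt L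
  have h1 : ∑ D ∈ S, (1 / (D : ℝ)) ≤ (W : ℝ) ^ (-(1 / 12 : ℝ)) * ∑ D ∈ S, f D := by
    rw [Finset.mul_sum]
    refine Finset.sum_le_sum fun D hD => ?_
    obtain ⟨_, hWD⟩ := hS D hD
    have hD0 : (0 : ℝ) < D := by exact_mod_cast (lt_trans hW hWD)
    have hW0 : (0 : ℝ) < W := by exact_mod_cast hW
    have e : (1 / (D : ℝ)) = (D : ℝ) ^ (-(1 / 12 : ℝ)) * f D := by
      rw [hf, ← Real.rpow_add hD0]
      norm_num
      rw [Real.rpow_neg_one]
    rw [e]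
    refine mul_le_mul_of_nonneg_right ?_ (hfnn D)
    exact Real.rpow_le_rpow_of_nonpos hW0 (by exact_mod_cast hWD.le) (by norm_num)
  have h2 : ∑ D ∈ S, f D ≤ ∏ p ∈ L.primesBelow, (1 - f p)⁻¹ := by
    have h3 : ∑ D ∈ S, f D = ∑ D ∈ S.attach.image
        (fun D => (⟨D.1, (hS D.1 D.2).1⟩ : L.smoothNumbers)), f D := by
      rw [Finset.sum_image]
      · rw [← Finset.sum_attach]
      · intro a _ b _ hab
        simp only [Subtype.mk.injEq] at hab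
        exact Subtype.ext hab
    rw [h3]
    exact sum_le_hasSum _ (fun i _ => hfnn i) hhas
  have h3 : ∏ p ∈ L.primesBelow, (1 - f p)⁻¹ ≤ Real.exp (36 * (L : ℝ) ^ (1 / 12 : ℝ)) := by
    have h4 : ∏ p ∈ L.primesBelow, (1 - f p)⁻¹ ≤ ∏ p ∈ L.primesBelow, Real.exp (3 * f p) := by
      refine Finset.prod_le_prod ?_ ?_
      · intro p hp
        have := hf23 (Nat.prime_of_mem_primesBelow hp)
        rw [inv_nonneg]; linarith
      · intro p hp
        have h := hf23 (Nat.prime_of_mem_primesBelow hp)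
        have h0 := hfnn p
        have h5 : (1 - f p)⁻¹ ≤ 3 * f p + 1 := by
          rw [inv_le_comm₀ (by linarith) (by linarith), inv_eq_one_div,
            div_le_iff₀ (by linarith)]
          nlinarith
        exact le_trans h5 (Real.add_one_le_exp _)
    refine le_trans h4 ?_
    rw [← Real.exp_sum, Real.exp_le_exp, ← Finset.mul_sum]
    have h6 : ∑ p ∈ L.primesBelow, f p ≤ ∑ n ∈ Icc 1 L, (n : ℝ) ^ (-(11 / 12 : ℝ)) := by
      refine Finset.sum_le_sum_of_subset_of_nonneg ?_ (fun n _ _ => hfnn n)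
      intro p hp
      rw [Finset.mem_Icc]
      exact ⟨(Nat.prime_of_mem_primesBelow hp).one_le, (Nat.lt_of_mem_primesBelow hp).le⟩
    have := sum_rpow_le L
    linarith
  refine le_trans h1 ?_
  exact mul_le_mul_of_nonneg_left (le_trans h2 h3) (by positivity)

/-- number of primes dividing `2^t - 1` -/
theorem card_primes_dvd (t : ℕ) (ht : 0 < t) (S : Finset ℕ)
    (hS : ∀ p ∈ S, p.Prime ∧ p ∣ 2 ^ t - 1) : S.card ≤ t := by
  have hne : 2 ^ t - 1 ≠ 0 := by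
    have : 2 ^ 1 ≤ 2 ^ t := Nat.pow_le_pow_right (by norm_num) ht
    omega
  have h1 : ∏ p ∈ S, p ∣ 2 ^ t - 1 :=
    Finset.prod_primes_dvd _ (fun p hp => (hS p hp).1.prime) (fun p hp => (hS p hp).2)
  have h2 : ∏ p ∈ S, p ≤ 2 ^ t - 1 := Nat.le_of_dvd (Nat.pos_of_ne_zero hne) h1
  have h3 : 2 ^ S.card ≤ ∏ p ∈ S, p := by
    rw [← Finset.prod_const]
    exact Finset.prod_le_prod' fun p hp => (hS p hp).1.two_le
  have h4 : 2 ^ S.card < 2 ^ t := by omega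
  exact ((Nat.pow_lt_pow_iff_right (by norm_num)).1 h4).le

/-- primes for which `2` has order at most `W` -/
theorem card_small_order (W : ℕ) (S : Finset ℕ)
    (hS : ∀ p ∈ S, p.Prime ∧ 2 < p ∧ orderOf (2 : ZMod p) ≤ W) : S.card ≤ W ^ 2 := by
  classical
  have hpos : ∀ p ∈ S, 0 < orderOf (2 : ZMod p) := by
    intro p hp
    obtain ⟨h1, h2, _⟩ := hS p hp
    have : Fact p.Prime := ⟨h1⟩
    have : NeZero p := ⟨h1.ne_zero⟩
    rw [orderOf_pos_iff]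
    have hne : (2 : ZMod p) ≠ 0 := by
      intro h
      have : ((2 : ℕ) : ZMod p) = 0 := by exact_mod_cast h
      rw [ZMod.natCast_eq_zero_iff] at this
      exact absurd (Nat.le_of_dvd (by norm_num) this) (by omega)
    rw [isOfFinOrder_iff_pow_eq_one]
    exact ⟨p - 1, by omega, ZMod.pow_card_sub_one_eq_one hne⟩
  have h1 : S ⊆ (Icc 1 W).biUnion (fun t => S.filter (fun p => orderOf (2 : ZMod p) = t)) := by
    intro p hp
    rw [Finset.mem_biUnion]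
    refine ⟨orderOf (2 : ZMod p), ?_, ?_⟩
    · rw [Finset.mem_Icc]
      exact ⟨hpos p hp, (hS p hp).2.2⟩
    · rw [Finset.mem_filter]; exact ⟨hp, rfl⟩
  refine le_trans (Finset.card_le_card h1) ?_
  refine le_trans Finset.card_biUnion_le ?_
  have h2 : ∀ t ∈ Icc 1 W, (S.filter (fun p => orderOf (2 : ZMod p) = t)).card ≤ W := by
    intro t ht
    rw [Finset.mem_Icc] at ht
    refine le_trans (card_primes_dvd t (by omega) _ ?_) ht.2
    intro p hp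
    rw [Finset.mem_filter] at hp
    refine ⟨(hS p hp.1).1, ?_⟩
    have h3 : (2 : ZMod p) ^ t = 1 := by rw [← hp.2]; exact pow_orderOf_eq_one _
    have h4 : ((2 ^ t : ℕ) : ZMod p) = ((1 : ℕ) : ZMod p) := by push_cast; exact h3
    rw [ZMod.natCast_eq_natCast_iff] at h4
    exact (Nat.modEq_iff_dvd' Nat.one_le_two_pow).1 h4.symm
  refine le_trans (Finset.sum_le_sum h2) ?_
  rw [Finset.sum_const, Nat.card_Icc, smul_eq_mul, sq, Nat.add_sub_cancel]

theorem sum_inv_le_log (M : ℕ) : ∑ j ∈ Icc 1 M, (1 / (j : ℝ)) ≤ 1 + Real.log M := by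
  have h := harmonic_le_one_add_log M
  rw [harmonic_eq_sum_Icc] at h
  push_cast at h
  simpa [one_div] using h

/-- primes up to `Z` for which the order of `2` is `L`-smooth and larger than `W` -/
theorem sum_smooth_order (L W Z : ℕ) (hW : 0 < W) (S : Finset ℕ)
    (hS : ∀ p ∈ S, p.Prime ∧ 2 < p ∧ p ≤ Z ∧ W < orderOf (2 : ZMod p) ∧
      orderOf (2 : ZMod p) ∈ Nat.smoothNumbers L) :
    ∑ p ∈ S, (1 / (p : ℝ)) ≤
      ((W : ℝ) ^ (-(1 / 12 : ℝ)) * Real.exp (36 * (L : ℝ) ^ (1 / 12 : ℝ))) * (1 + Real.log Z) := by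
  classical
  have hdvd : ∀ p ∈ S, orderOf (2 : ZMod p) ∣ p - 1 := by
    intro p hp
    obtain ⟨h1, h2, _⟩ := hS p hp
    have : Fact p.Prime := ⟨h1⟩
    have hne : (2 : ZMod p) ≠ 0 := by
      intro h
      have : ((2 : ℕ) : ZMod p) = 0 := by exact_mod_cast h
      rw [ZMod.natCast_eq_zero_iff] at this
      exact absurd (Nat.le_of_dvd (by norm_num) this) (by omega)
    exact orderOf_dvd_of_pow_eq_one (ZMod.pow_card_sub_one_eq_one hne)
  set T : Finset ℕ := S.image (fun p => orderOf (2 : ZMod p)) with hT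
  have hTsm : ∀ D ∈ T, D ∈ Nat.smoothNumbers L ∧ W < D := by
    intro D hD
    rw [hT, Finset.mem_image] at hD
    obtain ⟨p, hp, rfl⟩ := hD
    exact ⟨(hS p hp).2.2.2.2, (hS p hp).2.2.2.1⟩
  have h1 : ∑ p ∈ S, (1 / (p : ℝ)) ≤
      ∑ x ∈ T ×ˢ Icc 1 Z, (1 / (x.1 : ℝ)) * (1 / (x.2 : ℝ)) := by
    have hinj : Set.InjOn (fun p => (orderOf (2 : ZMod p), (p - 1) / orderOf (2 : ZMod p)))
        (S : Set ℕ) := by
      intro p hp q hq hpq
      simp only [Prod.mk.injEq] at hpq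
      obtain ⟨h2, h3⟩ := hpq
      have e1 := Nat.mul_div_cancel' (hdvd p hp)
      have e2 := Nat.mul_div_cancel' (hdvd q hq)
      rw [h3, h2, e2] at e1
      have := (hS p hp).2.1
      have := (hS q hq).2.1
      omega
    have h4 : ∑ p ∈ S, (1 / (p : ℝ)) ≤ ∑ p ∈ S, (1 / ((orderOf (2 : ZMod p) : ℕ) : ℝ))
        * (1 / (((p - 1) / orderOf (2 : ZMod p) : ℕ) : ℝ)) := by
      refine Finset.sum_le_sum fun p hp => ?_
      have e1 := Nat.mul_div_cancel' (hdvd p hp)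
      obtain ⟨hp1, hp2, _⟩ := hS p hp
      rw [one_div_mul_one_div]
      have e3 : ((orderOf (2 : ZMod p) : ℕ) : ℝ) * (((p - 1) / orderOf (2 : ZMod p) : ℕ) : ℝ)
          = ((p - 1 : ℕ) : ℝ) := by exact_mod_cast e1
      rw [e3]
      refine one_div_le_one_div_of_le ?_ ?_
      · have : 0 < p - 1 := by omega
        exact_mod_cast this
      · exact_mod_cast Nat.sub_le p 1
    refine le_trans h4 ?_
    rw [← Finset.sum_image (f := fun x : ℕ × ℕ => (1 / (x.1 : ℝ)) * (1 / (x.2 : ℝ)))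
      (g := fun p => (orderOf (2 : ZMod p), (p - 1) / orderOf (2 : ZMod p))) hinj]
    refine Finset.sum_le_sum_of_subset_of_nonneg ?_ (fun _ _ _ => by positivity)
    intro x hx
    rw [Finset.mem_image] at hx
    obtain ⟨p, hp, rfl⟩ := hx
    obtain ⟨hp1, hp2, hpZ, hpW, _⟩ := hS p hp
    rw [Finset.mem_product, Finset.mem_Icc]
    refine ⟨Finset.mem_image_of_mem _ hp, ?_, ?_⟩
    · have e1 := Nat.mul_div_cancel' (hdvd p hp)
      rcases Nat.eq_zero_or_pos ((p - 1) / orderOf (2 : ZMod p)) with h0 | h0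
      · rw [h0, mul_zero] at e1; omega
      · exact h0
    · refine le_trans (Nat.div_le_self _ _) (by omega)
  refine le_trans h1 ?_
  rw [Finset.sum_product]
  have h5 : ∑ x ∈ T, ∑ y ∈ Icc 1 Z, (1 / (x : ℝ)) * (1 / (y : ℝ))
      = (∑ x ∈ T, (1 / (x : ℝ))) * ∑ y ∈ Icc 1 Z, (1 / (y : ℝ)) := by
    rw [Finset.sum_mul_sum]
  rw [h5]
  refine mul_le_mul (smooth_tail L W hW T hTsm) (sum_inv_le_log Z)
    (Finset.sum_nonneg fun _ _ => by positivity) (by positivity)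

/-- The primes `p ∈ (4^(K^3), 4^(K^4)]` for which the order of `2` has a prime factor
`≥ K^12`. -/
noncomputable def PK (K : ℕ) : Finset ℕ := by
  classical
  exact ((Ioc (4 ^ (K ^ 3)) (4 ^ (K ^ 4))).filter Nat.Prime).filter
    (fun p => ∃ l : ℕ, l.Prime ∧ K ^ 12 ≤ l ∧ l ∣ orderOf (2 : ZMod p))

theorem mem_PK (K p : ℕ) : p ∈ PK K ↔ (4 ^ (K ^ 3) < p ∧ p ≤ 4 ^ (K ^ 4)) ∧ p.Prime ∧
    ∃ l : ℕ, l.Prime ∧ K ^ 12 ≤ l ∧ l ∣ orderOf (2 : ZMod p) := by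
  classical
  unfold PK
  rw [Finset.mem_filter, Finset.mem_filter, Finset.mem_Ioc, and_assoc]

theorem EK_lower (K : ℕ) (hK : 2 ≤ K) :
    Real.log ((K : ℝ) / 2) / 6 - (4 : ℝ) ^ (K ^ 2) / 4 ^ (K ^ 3)
      - ((2 : ℝ) ^ (K ^ 2)) ^ (-(1 / 12 : ℝ)) * Real.exp (36 * K) * (1 + K ^ 4 * Real.log 4)
      ≤ ∑ p ∈ PK K, (1 / (p : ℝ)) := by
  classical
  have h0 := prime_sum_lower K hK
  set A : Finset ℕ := (Ioc (4 ^ (K ^ 3)) (4 ^ (K ^ 4))).filter Nat.Prime with hA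
  set B : Finset ℕ := A.filter (fun p => orderOf (2 : ZMod p) ≤ 2 ^ (K ^ 2)) with hB
  set C : Finset ℕ := A.filter (fun p => 2 ^ (K ^ 2) < orderOf (2 : ZMod p) ∧
    orderOf (2 : ZMod p) ∈ Nat.smoothNumbers (K ^ 12)) with hC
  have hA3 : ∀ p ∈ A, p.Prime ∧ 4 ^ (K ^ 3) < p ∧ p ≤ 4 ^ (K ^ 4) := by
    intro p hp
    rw [hA, Finset.mem_filter, Finset.mem_Ioc] at hp
    exact ⟨hp.2, hp.1.1, hp.1.2⟩
  have h2lt : ∀ p ∈ A, 2 < p := by
    intro p hp
    have h1 := (hA3 p hp).2.1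
    have h2 : 4 ^ 1 ≤ 4 ^ (K ^ 3) := Nat.pow_le_pow_right (by norm_num)
      (Nat.one_le_pow _ _ (by omega))
    omega
  have hcover : A ⊆ PK K ∪ B ∪ C := by
    intro p hp
    obtain ⟨hp1, hp2, hp3⟩ := hA3 p hp
    rw [Finset.mem_union, Finset.mem_union]
    by_cases hl : ∃ l : ℕ, l.Prime ∧ K ^ 12 ≤ l ∧ l ∣ orderOf (2 : ZMod p)
    · left; left; rw [mem_PK]; exact ⟨⟨hp2, hp3⟩, hp1, hl⟩
    · by_cases hW : orderOf (2 : ZMod p) ≤ 2 ^ (K ^ 2)
      · left; right; rw [hB, Finset.mem_filter]; exact ⟨hp, hW⟩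
      · right; rw [hC, Finset.mem_filter]
        push Not at hW hl
        refine ⟨hp, hW, ?_⟩
        rw [Nat.mem_smoothNumbers']
        intro l hl1 hl2
        by_contra h
        exact hl l hl1 (by omega) hl2
  have hsum : ∑ p ∈ A, (1 / (p : ℝ)) ≤ ∑ p ∈ PK K, (1 / (p : ℝ)) + ∑ p ∈ B, (1 / (p : ℝ))
      + ∑ p ∈ C, (1 / (p : ℝ)) := by
    refine le_trans (Finset.sum_le_sum_of_subset_of_nonneg hcover (fun _ _ _ => by positivity)) ?_
    refine le_trans (b := ∑ p ∈ PK K ∪ B, (1 / (p : ℝ)) + ∑ p ∈ C, (1 / (p : ℝ))) ?_ ?_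
    · rw [← Finset.sum_union_inter]
      have : 0 ≤ ∑ p ∈ (PK K ∪ B) ∩ C, (1 / (p : ℝ)) := Finset.sum_nonneg fun _ _ => by positivity
      linarith
    · have : ∑ p ∈ PK K ∪ B, (1 / (p : ℝ)) ≤ ∑ p ∈ PK K, (1 / (p : ℝ)) + ∑ p ∈ B, (1 / (p : ℝ)) := by
        rw [← Finset.sum_union_inter]
        have : 0 ≤ ∑ p ∈ PK K ∩ B, (1 / (p : ℝ)) := Finset.sum_nonneg fun _ _ => by positivity
        linarith
      linarith
  have hBsum : ∑ p ∈ B, (1 / (p : ℝ)) ≤ (4 : ℝ) ^ (K ^ 2) / 4 ^ (K ^ 3) := by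
    have hBcard : B.card ≤ (2 ^ (K ^ 2)) ^ 2 := by
      refine card_small_order (2 ^ (K ^ 2)) B ?_
      intro p hp
      rw [hB, Finset.mem_filter] at hp
      exact ⟨(hA3 p hp.1).1, h2lt p hp.1, hp.2⟩
    have h1 : ∑ p ∈ B, (1 / (p : ℝ)) ≤ ∑ p ∈ B, (1 / (4 : ℝ) ^ (K ^ 3)) := by
      refine Finset.sum_le_sum fun p hp => ?_
      rw [hB, Finset.mem_filter] at hp
      refine one_div_le_one_div_of_le (by positivity) ?_
      exact_mod_cast (hA3 p hp.1).2.1.le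
    refine le_trans h1 ?_
    rw [Finset.sum_const, nsmul_eq_mul, mul_one_div]
    refine div_le_div_of_nonneg_right ?_ (by positivity)
    have h2 : (B.card : ℝ) ≤ ((2 ^ (K ^ 2)) ^ 2 : ℕ) := by exact_mod_cast hBcard
    refine le_trans h2 (le_of_eq ?_)
    push_cast
    rw [← pow_mul, mul_comm, pow_mul]
    norm_num
  have hCsum : ∑ p ∈ C, (1 / (p : ℝ)) ≤
      ((2 : ℝ) ^ (K ^ 2)) ^ (-(1 / 12 : ℝ)) * Real.exp (36 * K) * (1 + K ^ 4 * Real.log 4) := by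
    have h1 := sum_smooth_order (K ^ 12) (2 ^ (K ^ 2)) (4 ^ (K ^ 4)) (by positivity) C ?_
    · push_cast at h1
      have e1 : ((K : ℝ) ^ 12) ^ (1 / 12 : ℝ) = K := by
        rw [← Real.rpow_natCast, ← Real.rpow_mul (by positivity)]
        norm_num
      have e2 : Real.log ((4 : ℝ) ^ (K ^ 4)) = (K : ℝ) ^ 4 * Real.log 4 := by
        rw [Real.log_pow]; push_cast; ring
      rw [e1, e2] at h1
      exact h1
    · intro p hp
      rw [hC, Finset.mem_filter] at hp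
      exact ⟨(hA3 p hp.1).1, h2lt p hp.1, (hA3 p hp.1).2.2, hp.2.1, hp.2.2⟩
  linarith

end Pool.Agent.Work.MP_17736e_nt
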