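import Mathlib

namespace Pool.Agent.Work.MP_17736e_nt

open Finset

/-- number of multiples of `d` in `[1,N]` -/
theorem card_mult (N d : ℕ) : ((Icc 1 N).filter (fun m => d ∣ m)).card = N / d := by
  rw [← Nat.Ioc_filter_dvd_card_eq_div N d]
  congr 1

/-- Turán's inequality for the number of prime factors from a finite set of primes. -/
theorem turan (P : Finset ℕ) (hP : ∀ p ∈ P, p.Prime) (N : ℕ) :
    ∑ m ∈ Icc 1 N, (((P.filter (fun p => p ∣ m)).card : ℝ) - ∑ p ∈ P, (1 / (p : ℝ))) ^ 2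
      ≤ N * ∑ p ∈ P, (1 / (p : ℝ)) + 2 * (∑ p ∈ P, (1 / (p : ℝ))) * P.card := by
  classical
  set E : ℝ := ∑ p ∈ P, (1 / (p : ℝ)) with hE
  have hE0 : 0 ≤ E := Finset.sum_nonneg fun p _ => by positivity
  have hω : ∀ m, ((P.filter (fun p => p ∣ m)).card : ℝ) = ∑ p ∈ P, (if p ∣ m then (1 : ℝ) else 0) := by
    intro m
    rw [Finset.sum_ite, Finset.sum_const_zero, add_zero, Finset.sum_const, nsmul_eq_mul, mul_one]
  have hcount : ∀ d : ℕ, ∑ m ∈ Icc 1 N, (if d ∣ m then (1 : ℝ) else 0) = ((N / d : ℕ) : ℝ) := by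
    intro d
    rw [Finset.sum_ite, Finset.sum_const_zero, add_zero, Finset.sum_const, nsmul_eq_mul, mul_one,
      card_mult]
  have h1 : ∑ m ∈ Icc 1 N, ((P.filter (fun p => p ∣ m)).card : ℝ) = ∑ p ∈ P, ((N / p : ℕ) : ℝ) := by
    simp_rw [hω]
    rw [Finset.sum_comm]
    exact Finset.sum_congr rfl fun p _ => hcount p
  have h1' : (N : ℝ) * E - P.card ≤ ∑ m ∈ Icc 1 N, ((P.filter (fun p => p ∣ m)).card : ℝ) := by
    rw [h1, hE, Finset.mul_sum, sub_le_iff_le_add]
    have : ((P.card : ℕ) : ℝ) = ∑ p ∈ P, (1 : ℝ) := by simp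
    rw [this, ← Finset.sum_add_distrib]
    refine Finset.sum_le_sum fun p hp => ?_
    have hp0 : 0 < p := (hP p hp).pos
    have := Nat.lt_div_mul_add (a := N) hp0
    have h2 : (N : ℝ) < ((N / p : ℕ) : ℝ) * p + p := by exact_mod_cast this
    have hpR : (0 : ℝ) < p := by exact_mod_cast hp0
    rw [mul_one_div, div_le_iff₀ hpR]
    nlinarith
  have h2 : ∑ m ∈ Icc 1 N, ((P.filter (fun p => p ∣ m)).card : ℝ) ^ 2 ≤ N * E ^ 2 + N * E := by
    have e1 : ∀ m, ((P.filter (fun p => p ∣ m)).card : ℝ) ^ 2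
        = ∑ p ∈ P, ∑ q ∈ P, (if p ∣ m then (1 : ℝ) else 0) * (if q ∣ m then (1 : ℝ) else 0) := by
      intro m
      rw [hω, sq, Finset.sum_mul_sum]
    simp_rw [e1]
    rw [Finset.sum_comm]
    have e2 : ∀ p ∈ P, ∑ m ∈ Icc 1 N, ∑ q ∈ P,
        (if p ∣ m then (1 : ℝ) else 0) * (if q ∣ m then (1 : ℝ) else 0)
        ≤ ∑ q ∈ P, (N : ℝ) * (1 / p) * (1 / q) + N * (1 / p) := by
      intro p hp
      rw [Finset.sum_comm]
      have hp0 : 0 < p := (hP p hp).pos
      have hpR : (0 : ℝ) < p := by exact_mod_cast hp0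
      have e3 : ∀ q ∈ P, ∑ m ∈ Icc 1 N,
          (if p ∣ m then (1 : ℝ) else 0) * (if q ∣ m then (1 : ℝ) else 0)
          ≤ (N : ℝ) * (1 / p) * (1 / q) + (if q = p then (N : ℝ) * (1 / p) else 0) := by
        intro q hq
        have hq0 : 0 < q := (hP q hq).pos
        have hqR : (0 : ℝ) < q := by exact_mod_cast hq0
        by_cases hqp : q = p
        · subst hqp
          rw [if_pos rfl]
          have : ∀ m ∈ Icc 1 N, (if q ∣ m then (1 : ℝ) else 0) * (if q ∣ m then (1 : ℝ) else 0)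
              = (if q ∣ m then (1 : ℝ) else 0) := by
            intro m _; split_ifs <;> simp
          rw [Finset.sum_congr rfl this, hcount]
          have h3 : ((N / q : ℕ) : ℝ) ≤ N * (1 / q) := by
            rw [mul_one_div]; exact Nat.cast_div_le
          have h4 : (0 : ℝ) ≤ N * (1 / q) * (1 / q) := by positivity
          linarith
        · rw [if_neg hqp, add_zero]
          have hcop : Nat.Coprime p q := (Nat.coprime_primes (hP p hp) (hP q hq)).2 (Ne.symm hqp)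
          have : ∀ m ∈ Icc 1 N, (if p ∣ m then (1 : ℝ) else 0) * (if q ∣ m then (1 : ℝ) else 0)
              = (if p * q ∣ m then (1 : ℝ) else 0) := by
            intro m _
            by_cases hpm : p ∣ m
            · by_cases hqm : q ∣ m
              · rw [if_pos hpm, if_pos hqm, if_pos (hcop.mul_dvd_of_dvd_of_dvd hpm hqm), mul_one]
              · rw [if_neg hqm, if_neg (fun h => hqm (dvd_trans (Dvd.intro_left p rfl) h)), mul_zero]
            · rw [if_neg hpm, if_neg (fun h => hpm (dvd_trans (Dvd.intro q rfl) h)), zero_mul]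
          rw [Finset.sum_congr rfl this, hcount]
          calc ((N / (p * q) : ℕ) : ℝ) ≤ (N : ℝ) / ((p * q : ℕ) : ℝ) := Nat.cast_div_le
            _ = (N : ℝ) * (1 / p) * (1 / q) := by push_cast; field_simp
      refine le_trans (Finset.sum_le_sum e3) ?_
      rw [Finset.sum_add_distrib]
      have : ∑ q ∈ P, (if q = p then (N : ℝ) * (1 / p) else 0) = N * (1 / p) := by
        rw [Finset.sum_ite_eq' P p (fun _ => (N : ℝ) * (1 / p)), if_pos hp]
      rw [this]
    refine le_trans (Finset.sum_le_sum e2) ?_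
    rw [Finset.sum_add_distrib]
    have e5 : ∑ p ∈ P, ∑ q ∈ P, (N : ℝ) * (1 / p) * (1 / q) = N * E ^ 2 := by
      rw [sq, hE, Finset.sum_mul_sum, Finset.mul_sum]
      refine Finset.sum_congr rfl fun p _ => ?_
      rw [Finset.mul_sum]
      refine Finset.sum_congr rfl fun q _ => ?_
      ring
    have e6 : ∑ p ∈ P, (N : ℝ) * (1 / p) = N * E := by
      rw [hE, Finset.mul_sum]
    rw [e5, e6]
  have hexp : ∑ m ∈ Icc 1 N, (((P.filter (fun p => p ∣ m)).card : ℝ) - E) ^ 2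
      = ∑ m ∈ Icc 1 N, ((P.filter (fun p => p ∣ m)).card : ℝ) ^ 2
        - 2 * E * ∑ m ∈ Icc 1 N, ((P.filter (fun p => p ∣ m)).card : ℝ) + N * E ^ 2 := by
    have : ∀ m ∈ Icc 1 N, (((P.filter (fun p => p ∣ m)).card : ℝ) - E) ^ 2
        = ((P.filter (fun p => p ∣ m)).card : ℝ) ^ 2
          - 2 * E * ((P.filter (fun p => p ∣ m)).card : ℝ) + E ^ 2 := by
      intro m _; ring
    rw [Finset.sum_congr rfl this, Finset.sum_add_distrib, Finset.sum_sub_distrib,
      ← Finset.mul_sum, Finset.sum_const, Nat.card_Icc, nsmul_eq_mul, Nat.add_sub_cancel]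
  rw [hexp]
  nlinarith [mul_le_mul_of_nonneg_left h1' (by positivity : (0 : ℝ) ≤ 2 * E)]

/-- Few integers up to `N` have fewer than `k` prime factors from `P`. -/
theorem turan_card (P : Finset ℕ) (hP : ∀ p ∈ P, p.Prime) (N k : ℕ)
    (hPN : P.card ≤ N) (hk : (k : ℝ) < ∑ p ∈ P, (1 / (p : ℝ))) :
    (((Icc 1 N).filter (fun m => (P.filter (fun p => p ∣ m)).card < k)).card : ℝ)
      * ((∑ p ∈ P, (1 / (p : ℝ))) - k) ^ 2 ≤ 3 * N * ∑ p ∈ P, (1 / (p : ℝ)) := by
  classical
  have ht := turan P hP N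
  set E : ℝ := ∑ p ∈ P, (1 / (p : ℝ)) with hE
  have hE0 : 0 ≤ E := Finset.sum_nonneg fun p _ => by positivity
  have hPN' : (P.card : ℝ) ≤ N := by exact_mod_cast hPN
  have h1 : (((Icc 1 N).filter (fun m => (P.filter (fun p => p ∣ m)).card < k)).card : ℝ)
      * (E - k) ^ 2 ≤ ∑ m ∈ Icc 1 N, (((P.filter (fun p => p ∣ m)).card : ℝ) - E) ^ 2 := by
    rw [← nsmul_eq_mul, ← Finset.sum_const]
    refine le_trans (Finset.sum_le_sum (g := fun m =>
      (((P.filter (fun p => p ∣ m)).card : ℝ) - E) ^ 2) ?_)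
      (Finset.sum_le_sum_of_subset_of_nonneg (Finset.filter_subset _ _)
        (fun _ _ _ => sq_nonneg _))
    intro m hm
    rw [Finset.mem_filter] at hm
    have h2 : ((P.filter (fun p => p ∣ m)).card : ℝ) ≤ k := by exact_mod_cast hm.2.le
    nlinarith
  refine le_trans h1 (le_trans ht ?_)
  nlinarith [mul_le_mul_of_nonneg_left hPN' (by positivity : (0 : ℝ) ≤ 2 * E)]

end Pool.Agent.Work.MP_17736e_nt
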