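import Mathlib
import Pool.Agent.Work.MP_17736e_nt.Turan
import Pool.Agent.Work.MP_17736e_nt.Smooth

namespace Pool.Agent.Work.MP_17736e_nt

open Finset Real

theorem dvd_totient_cases (l s : ℕ) (hl : l.Prime) (hs : 0 < s) (h : l ∣ Nat.totient s) :
    l * l ∣ s ∨ ∃ q, q.Prime ∧ q ∣ s ∧ l ∣ q - 1 := by
  rw [Nat.totient_eq_div_primeFactors_mul] at h
  rcases (Nat.Prime.dvd_mul hl).1 h with h1 | h1
  · left
    have hrad : (∏ p ∈ s.primeFactors, p) ∣ s := Nat.prod_primeFactors_dvd s
    have h2 : (∏ p ∈ s.primeFactors, p) * l ∣ s := by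
      have := Nat.mul_dvd_mul_left (∏ p ∈ s.primeFactors, p) h1
      rwa [Nat.mul_div_cancel' hrad] at this
    have hls : l ∣ s := dvd_trans (Dvd.intro_left _ rfl) h2
    have hlm : l ∈ s.primeFactors := Nat.mem_primeFactors.2 ⟨hl, hls, hs.ne'⟩
    have h3 : l ∣ ∏ p ∈ s.primeFactors, p := Finset.dvd_prod_of_mem _ hlm
    exact dvd_trans (Nat.mul_dvd_mul_right h3 l) h2
  · right
    rw [Prime.dvd_finsetProd_iff hl.prime] at h1
    obtain ⟨q, hq, hlq⟩ := h1
    exact ⟨q, Nat.prime_of_mem_primeFactors hq, Nat.dvd_of_mem_primeFactors hq, hlq⟩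

theorem card_totient_dvd (l S : ℕ) (hl : l.Prime) :
    (((Icc 1 S).filter (fun s => l ∣ Nat.totient s)).card : ℝ)
      ≤ (S : ℝ) / l * (2 + Real.log S) := by
  classical
  have hl0 : (0 : ℝ) < l := by exact_mod_cast hl.pos
  have hsub : (Icc 1 S).filter (fun s => l ∣ Nat.totient s) ⊆
      (Icc 1 S).filter (fun s => l * l ∣ s) ∪
        (Icc 1 S).biUnion (fun j => (Icc 1 S).filter (fun s => (1 + j * l) ∣ s)) := by
    intro s hs
    rw [Finset.mem_filter, Finset.mem_Icc] at hs
    rw [Finset.mem_union]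
    rcases dvd_totient_cases l s hl (by omega) hs.2 with h | ⟨q, hq, hqs, hlq⟩
    · left; rw [Finset.mem_filter, Finset.mem_Icc]; exact ⟨hs.1, h⟩
    · right
      rw [Finset.mem_biUnion]
      obtain ⟨j, hj⟩ := hlq
      have hq2 := hq.two_le
      have hqS : q ≤ S := le_trans (Nat.le_of_dvd (by omega) hqs) hs.1.2
      have hj0 : 0 < j := by
        rcases Nat.eq_zero_or_pos j with h0 | h0
        · subst h0; omega
        · exact h0
      have hjl : j ≤ l * j := Nat.le_mul_of_pos_left j hl.pos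
      refine ⟨j, ?_, ?_⟩
      · rw [Finset.mem_Icc]; omega
      · rw [Finset.mem_filter, Finset.mem_Icc]
        refine ⟨hs.1, ?_⟩
        have : 1 + j * l = q := by rw [mul_comm j l]; omega
        rw [this]; exact hqs
  have h1 : (((Icc 1 S).filter (fun s => l ∣ Nat.totient s)).card : ℝ) ≤
      (((Icc 1 S).filter (fun s => l * l ∣ s)).card : ℝ)
        + ∑ j ∈ Icc 1 S, (((Icc 1 S).filter (fun s => (1 + j * l) ∣ s)).card : ℝ) := by
    have := le_trans (Finset.card_le_card hsub) (le_trans (Finset.card_union_le _ _)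
      (Nat.add_le_add_left Finset.card_biUnion_le _))
    exact_mod_cast this
  have h2 : (((Icc 1 S).filter (fun s => l * l ∣ s)).card : ℝ) ≤ (S : ℝ) / l := by
    rw [card_mult]
    refine le_trans Nat.cast_div_le ?_
    push_cast
    refine div_le_div_of_nonneg_left (by positivity) hl0 ?_
    have : (1 : ℝ) ≤ l := by exact_mod_cast hl.one_le
    nlinarith
  have h3 : ∑ j ∈ Icc 1 S, (((Icc 1 S).filter (fun s => (1 + j * l) ∣ s)).card : ℝ)
      ≤ (S : ℝ) / l * (1 + Real.log S) := by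
    refine le_trans (Finset.sum_le_sum (g := fun j : ℕ => (S : ℝ) / l * (1 / (j : ℝ))) ?_) ?_
    · intro j hj
      rw [Finset.mem_Icc] at hj
      have hj0 : (0 : ℝ) < j := by exact_mod_cast (by omega : 0 < j)
      rw [card_mult]
      refine le_trans Nat.cast_div_le ?_
      push_cast
      rw [div_mul_div_comm, mul_one]
      refine div_le_div_of_nonneg_left (by positivity) (by positivity) ?_
      nlinarith
    · rw [← Finset.mul_sum]
      exact mul_le_mul_of_nonneg_left (sum_inv_le_log S) (by positivity)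
  have : (S : ℝ) / l * (2 + Real.log S) = (S : ℝ) / l + (S : ℝ) / l * (1 + Real.log S) := by ring
  rw [this]
  linarith

/-- count of `m ≤ N` divisible by `p` such that `m / p` is bad for the pair `(p,l)` -/
theorem card_bad (p l N : ℕ) (hp : p.Prime) (hl : l.Prime) (hlp : l < p) :
    (((Icc 1 N).filter (fun m => p ∣ m ∧ (p ∣ m / p ∨ l ∣ Nat.totient (m / p)))).card : ℝ)
      ≤ (N : ℝ) * (1 / (p : ℝ)) * ((3 + Real.log N) / l) := by
  classical
  have hp0 : (0 : ℝ) < p := by exact_mod_cast hp.pos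
  have hl0 : (0 : ℝ) < l := by exact_mod_cast hl.pos
  have hcard : ((Icc 1 N).filter (fun m => p ∣ m ∧ (p ∣ m / p ∨ l ∣ Nat.totient (m / p)))).card
      ≤ ((Icc 1 (N / p)).filter (fun s => p ∣ s)).card
        + ((Icc 1 (N / p)).filter (fun s => l ∣ Nat.totient s)).card := by
    refine le_trans ?_ (Finset.card_union_le _ _)
    refine Finset.card_le_card_of_injOn (fun m => m / p) ?_ ?_
    · intro m hm
      rw [Finset.mem_coe, Finset.mem_filter, Finset.mem_Icc] at hm
      obtain ⟨⟨hm1, hm2⟩, hpm, hor⟩ := hm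
      have h1 : 1 ≤ m / p := by
        rw [Nat.le_div_iff_mul_le hp.pos]
        have := Nat.le_of_dvd (by omega) hpm
        omega
      have h2 : m / p ≤ N / p := Nat.div_le_div_right hm2
      rw [Finset.mem_coe, Finset.mem_union, Finset.mem_filter, Finset.mem_filter, Finset.mem_Icc]
      rcases hor with h | h
      · left; exact ⟨⟨h1, h2⟩, h⟩
      · right; exact ⟨⟨h1, h2⟩, h⟩
    · intro a ha b hb hab
      rw [Finset.mem_coe, Finset.mem_filter] at ha hb
      simp only at hab
      rw [← Nat.div_mul_cancel ha.2.1, hab, Nat.div_mul_cancel hb.2.1]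
  have hcard' : (((Icc 1 N).filter (fun m => p ∣ m ∧ (p ∣ m / p ∨ l ∣ Nat.totient (m / p)))).card : ℝ)
      ≤ (((Icc 1 (N / p)).filter (fun s => p ∣ s)).card : ℝ)
        + (((Icc 1 (N / p)).filter (fun s => l ∣ Nat.totient s)).card : ℝ) := by
    exact_mod_cast hcard
  refine le_trans hcard' ?_
  have hNp : ((N / p : ℕ) : ℝ) ≤ (N : ℝ) * (1 / (p : ℝ)) := by
    rw [mul_one_div]; exact Nat.cast_div_le
  have h1 : (((Icc 1 (N / p)).filter (fun s => p ∣ s)).card : ℝ)
      ≤ (N : ℝ) * (1 / (p : ℝ)) * (1 / l) := by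
    rw [card_mult]
    refine le_trans Nat.cast_div_le ?_
    rw [← mul_one_div]
    refine mul_le_mul hNp ?_ (by positivity) (by positivity)
    refine one_div_le_one_div_of_le hl0 (by exact_mod_cast hlp.le)
  have h2 := card_totient_dvd l (N / p) hl
  have h3 : Real.log ((N / p : ℕ) : ℝ) ≤ Real.log N := by
    rcases Nat.eq_zero_or_pos (N / p) with h0 | h0
    · rw [h0]; simp only [Nat.cast_zero, Real.log_zero]; exact Real.log_natCast_nonneg N
    · exact Real.log_le_log (by exact_mod_cast h0) (by exact_mod_cast Nat.div_le_self N p)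
  have h4 : ((N / p : ℕ) : ℝ) / l * (2 + Real.log ((N / p : ℕ) : ℝ))
      ≤ (N : ℝ) * (1 / (p : ℝ)) * ((2 + Real.log N) / l) := by
    have h5 : (0 : ℝ) ≤ Real.log ((N / p : ℕ) : ℝ) := Real.log_natCast_nonneg _
    calc ((N / p : ℕ) : ℝ) / l * (2 + Real.log ((N / p : ℕ) : ℝ))
        = ((N / p : ℕ) : ℝ) * ((2 + Real.log ((N / p : ℕ) : ℝ)) / l) := by ring
      _ ≤ (N : ℝ) * (1 / (p : ℝ)) * ((2 + Real.log N) / l) := by
          refine mul_le_mul hNp ?_ (by positivity) (by positivity)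
          exact div_le_div_of_nonneg_right (by linarith) hl0.le
  calc _ ≤ (N : ℝ) * (1 / (p : ℝ)) * (1 / l) + (N : ℝ) * (1 / (p : ℝ)) * ((2 + Real.log N) / l) := by
        linarith
    _ = (N : ℝ) * (1 / (p : ℝ)) * ((3 + Real.log N) / l) := by ring

end Pool.Agent.Work.MP_17736e_nt
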