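import Mathlib
import Pool.Agent.Work.MP_17736e_nt.Smooth

namespace Pool.Agent.Work.MP_17736e_nt

open Finset Real Filter

theorem EK_lower' (K : ℕ) (hK : 1000 ≤ K) :
    Real.log ((K : ℝ) / 2) / 6 - 50 ≤ ∑ p ∈ PK K, (1 / (p : ℝ)) := by
  have h := EK_lower K (by omega)
  have hlog2 : 0.6931471803 < Real.log 2 := Real.log_two_gt_d9
  have hlog2' : Real.log 2 < 0.6931471808 := Real.log_two_lt_d9
  have hlog4 : Real.log 4 = 2 * Real.log 2 := by
    rw [show (4 : ℝ) = 2 ^ 2 by norm_num, Real.log_pow]; norm_num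
  have hKR : (1000 : ℝ) ≤ K := by exact_mod_cast hK
  have h1 : (4 : ℝ) ^ (K ^ 2) / 4 ^ (K ^ 3) ≤ 1 := by
    rw [div_le_one (by positivity)]
    exact pow_le_pow_right₀ (by norm_num) (Nat.pow_le_pow_right (by omega) (by norm_num))
  have h2 : ((2 : ℝ) ^ (K ^ 2)) ^ (-(1 / 12 : ℝ)) * Real.exp (36 * K) ≤ Real.exp (-(K : ℝ)) := by
    have e1 : ((2 : ℝ) ^ (K ^ 2)) ^ (-(1 / 12 : ℝ))
        = Real.exp (-(1 / 12) * ((K : ℝ) ^ 2 * Real.log 2)) := by
      rw [Real.rpow_def_of_pos (by positivity), Real.log_pow]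
      push_cast
      ring_nf
    rw [e1, ← Real.exp_add, Real.exp_le_exp]
    nlinarith
  have h3 : (1 + (K : ℝ) ^ 4 * Real.log 4) ≤ 49 * Real.exp K := by
    have h4 := Real.pow_div_factorial_le_exp (x := (K : ℝ)) (by positivity) 4
    have h5 : ((4 : ℕ).factorial : ℝ) = 24 := by norm_num [Nat.factorial]
    rw [h5, div_le_iff₀ (by norm_num)] at h4
    have h6 : (1 : ℝ) ≤ Real.exp K := Real.one_le_exp (by positivity)
    rw [hlog4]
    nlinarith
  have h4 : ((2 : ℝ) ^ (K ^ 2)) ^ (-(1 / 12 : ℝ)) * Real.exp (36 * K) * (1 + K ^ 4 * Real.log 4)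
      ≤ 49 := by
    calc ((2 : ℝ) ^ (K ^ 2)) ^ (-(1 / 12 : ℝ)) * Real.exp (36 * K) * (1 + K ^ 4 * Real.log 4)
        ≤ Real.exp (-(K : ℝ)) * (49 * Real.exp K) :=
          mul_le_mul h2 h3 (by positivity) (by positivity)
      _ = 49 := by rw [Real.exp_neg]; field_simp
  linarith

theorem EK_tendsto : Tendsto (fun K : ℕ => ∑ p ∈ PK K, (1 / (p : ℝ))) atTop atTop := by
  have h1 : Tendsto (fun K : ℕ => Real.log ((K : ℝ) / 2) / 6 - 50) atTop atTop := by
    refine tendsto_atTop_add_const_right _ _ ?_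
    refine Tendsto.atTop_div_const (by norm_num) ?_
    refine Real.tendsto_log_atTop.comp ?_
    exact Tendsto.atTop_div_const (by norm_num) tendsto_natCast_atTop_atTop
  refine tendsto_atTop_mono' _ ?_ h1
  filter_upwards [eventually_ge_atTop 1000] with K hK
  exact EK_lower' K hK

theorem EK_upper (K : ℕ) : ∑ p ∈ PK K, (1 / (p : ℝ)) ≤ 1 + K ^ 4 * Real.log 4 := by
  have h := sum_inv_le_log (4 ^ (K ^ 4))
  push_cast at h
  rw [Real.log_pow] at h
  push_cast at h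
  refine le_trans (Finset.sum_le_sum_of_subset_of_nonneg ?_ (fun _ _ _ => by positivity)) h
  intro p hp
  rw [mem_PK] at hp
  rw [Finset.mem_Icc]
  exact ⟨hp.2.1.one_le, hp.1.2⟩

end Pool.Agent.Work.MP_17736e_nt
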