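import Mathlib

namespace Pool.Agent.Work.MP_17736e_nt

open Finset

/-- absolute value of the exponential sum over a finite set of residues -/
noncomputable def HR (p : ℕ) [NeZero p] (R : Finset (ZMod p)) (c : ZMod p) : ℝ :=
  ‖∑ x ∈ R, ZMod.stdAddChar (c * x)‖

theorem HR_nonneg (p : ℕ) [NeZero p] (R : Finset (ZMod p)) (c : ZMod p) : 0 ≤ HR p R c :=
  norm_nonneg _

theorem sum_HR_sq (p : ℕ) [NeZero p] (R : Finset (ZMod p)) :
    ∑ c : ZMod p, (HR p R c) ^ 2 = p * R.card := by
  classical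
  have h : ∀ c : ZMod p, (((HR p R c) ^ 2 : ℝ) : ℂ)
      = ∑ x ∈ R, ∑ y ∈ R, ZMod.stdAddChar (c * (x - y)) := by
    intro c
    unfold HR
    push_cast
    rw [← Complex.mul_conj', map_sum, Finset.sum_mul_sum]
    refine Finset.sum_congr rfl fun x _ => Finset.sum_congr rfl fun y _ => ?_
    rw [← AddChar.map_neg_eq_conj, ← AddChar.map_add_eq_mul]
    congr 1
    ring
  have h2 : (((∑ c : ZMod p, (HR p R c) ^ 2 : ℝ)) : ℂ) = ((p * R.card : ℝ) : ℂ) := by
    rw [Complex.ofReal_sum]
    simp_rw [h]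
    rw [Finset.sum_comm]
    have h3 : ∀ x ∈ R, ∑ c : ZMod p, ∑ y ∈ R, (ZMod.stdAddChar (c * (x - y)) : ℂ) = p := by
      intro x hx
      rw [Finset.sum_comm]
      have h4 : ∀ y ∈ R, ∑ c : ZMod p, (ZMod.stdAddChar (c * (x - y)) : ℂ)
          = if y = x then (p : ℂ) else 0 := by
        intro y _
        rw [AddChar.sum_mulShift _ (ZMod.isPrimitive_stdAddChar p), ZMod.card]
        by_cases hxy : y = x
        · rw [if_pos hxy, if_pos (by rw [hxy, sub_self])]
        · rw [if_neg hxy, if_neg (by rw [sub_eq_zero]; exact Ne.symm hxy)]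
          simp
      rw [Finset.sum_congr rfl h4, Finset.sum_ite_eq', if_pos hx]
    rw [Finset.sum_congr rfl h3, Finset.sum_const, nsmul_eq_mul]
    push_cast
    ring
  exact_mod_cast h2

theorem sum_HR (p : ℕ) [NeZero p] (R : Finset (ZMod p)) :
    ∑ c : ZMod p, HR p R c ≤ p * √(R.card) := by
  have h1 := sq_sum_le_card_mul_sum_sq (s := (Finset.univ : Finset (ZMod p))) (f := fun c => HR p R c)
  rw [sum_HR_sq, Finset.card_univ, ZMod.card] at h1
  refine abs_le_of_sq_le_sq' ?_ (by positivity) |>.2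
  rw [mul_pow, Real.sq_sqrt (by positivity)]
  calc _ ≤ _ := h1
    _ = _ := by ring

/-- the `l`-th roots of unity mod `p` -/
def rootSet (p l : ℕ) [NeZero p] : Finset (ZMod p) := Finset.univ.filter (fun x => x ^ l = 1)

theorem card_rootSet_le (p l : ℕ) [Fact p.Prime] (hl : 0 < l) : (rootSet p l).card ≤ l := by
  classical
  have h1 : rootSet p l ⊆ (Polynomial.nthRoots l (1 : ZMod p)).toFinset := by
    intro x hx
    unfold rootSet at hx
    rw [Finset.mem_filter] at hx
    rw [Multiset.mem_toFinset, Polynomial.mem_nthRoots hl]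
    exact hx.2
  refine le_trans (Finset.card_le_card h1) (le_trans (Multiset.toFinset_card_le _) ?_)
  exact Polynomial.card_nthRoots l 1

theorem image_pow_eq (p l : ℕ) [Fact p.Prime] (hl : 0 < l) (a : ZMod p) (ha : orderOf a = l) :
    (Finset.range l).image (fun i => a ^ i) = rootSet p l ∧ (rootSet p l).card = l ∧
      Set.InjOn (fun i => a ^ i) ((Finset.range l : Finset ℕ) : Set ℕ) := by
  classical
  have hinj : Set.InjOn (fun i => a ^ i) ((Finset.range l : Finset ℕ) : Set ℕ) := by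
    intro i hi j hj hij
    rw [Finset.mem_coe, Finset.mem_range] at hi hj
    exact pow_injOn_Iio_orderOf (by rw [Set.mem_Iio, ha]; exact hi)
      (by rw [Set.mem_Iio, ha]; exact hj) hij
  have hsub : (Finset.range l).image (fun i => a ^ i) ⊆ rootSet p l := by
    intro x hx
    rw [Finset.mem_image] at hx
    obtain ⟨i, _, rfl⟩ := hx
    unfold rootSet
    rw [Finset.mem_filter]
    refine ⟨Finset.mem_univ _, ?_⟩
    rw [← pow_mul, mul_comm, pow_mul, ← ha, pow_orderOf_eq_one, one_pow]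
  have hcard : ((Finset.range l).image (fun i => a ^ i)).card = l := by
    rw [Finset.card_image_of_injOn hinj, Finset.card_range]
  have heq : (Finset.range l).image (fun i => a ^ i) = rootSet p l := by
    refine Finset.eq_of_subset_of_card_le hsub ?_
    rw [hcard]
    exact card_rootSet_le p l hl
  refine ⟨heq, ?_, hinj⟩
  rw [← heq, hcard]

theorem sum_pow_eq (p l : ℕ) [Fact p.Prime] (hl : 0 < l) (a : ZMod p) (ha : orderOf a = l)
    (f : ZMod p → ℂ) : ∑ i ∈ Finset.range l, f (a ^ i) = ∑ x ∈ rootSet p l, f x := by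
  classical
  obtain ⟨h1, _, h3⟩ := image_pow_eq p l hl a ha
  rw [← h1, Finset.sum_image h3]

theorem sum_range_mul (p q : ℕ) [NeZero p] (F : ZMod p → ℝ) :
    ∑ s ∈ Finset.range (p * q), F (s : ZMod p) = q * ∑ c : ZMod p, F c := by
  induction q with
  | zero => simp
  | succ q ih =>
    rw [Nat.mul_succ, Finset.sum_range_add, ih]
    have h1 : ∑ x ∈ Finset.range p, F ((p * q + x : ℕ) : ZMod p) = ∑ c : ZMod p, F c := by
      refine Finset.sum_bij' (fun x _ => ((x : ℕ) : ZMod p)) (fun c _ => c.val) ?_ ?_ ?_ ?_ ?_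
      · intro x _; exact Finset.mem_univ _
      · intro c _; rw [Finset.mem_range]; exact ZMod.val_lt c
      · intro x hx
        rw [Finset.mem_range] at hx
        exact ZMod.val_cast_of_lt hx
      · intro c _; exact ZMod.natCast_zmod_val c
      · intro x _; push_cast; simp
    rw [h1]
    push_cast
    ring

theorem sum_Icc_residue (p S : ℕ) [NeZero p] (F : ZMod p → ℝ) (hF : ∀ c, 0 ≤ F c) :
    ∑ s ∈ Icc 1 S, F (s : ZMod p) ≤ ((S / p : ℕ) + 1) * ∑ c : ZMod p, F c := by
  have h := sum_range_mul p (S / p + 1) F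
  push_cast at h
  rw [← h]
  refine Finset.sum_le_sum_of_subset_of_nonneg ?_ (fun _ _ _ => hF _)
  intro s hs
  rw [Finset.mem_Icc] at hs
  rw [Finset.mem_range]
  have := Nat.lt_mul_div_succ S (Nat.pos_of_ne_zero (NeZero.ne p))
  omega

/-- Sum over `s ≤ S` of the exponential sums at `c₀ / s`. -/
theorem sum_inv_residue (p S : ℕ) [Fact p.Prime] (R : Finset (ZMod p)) (c₀ : ZMod p)
    (hc : c₀ ≠ 0) :
    ∑ s ∈ (Icc 1 S).filter (fun s => ¬ p ∣ s), HR p R (c₀ * ((s : ZMod p))⁻¹)
      ≤ ((S / p : ℕ) + 1) * (p * √(R.card)) := by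
  classical
  set F : ZMod p → ℝ := fun c => if c = 0 then 0 else HR p R (c₀ * c⁻¹) with hF
  have hFnn : ∀ c, 0 ≤ F c := by
    intro c
    simp only [hF]
    split_ifs
    · exact le_refl _
    · exact HR_nonneg _ _ _
  have h1 : ∑ s ∈ (Icc 1 S).filter (fun s => ¬ p ∣ s), HR p R (c₀ * ((s : ZMod p))⁻¹)
      ≤ ∑ s ∈ Icc 1 S, F (s : ZMod p) := by
    rw [Finset.sum_filter]
    refine Finset.sum_le_sum fun s _ => ?_
    by_cases hps : p ∣ s
    · rw [if_neg (not_not.2 hps)]; exact hFnn _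
    · rw [if_pos hps]
      simp only [hF]
      rw [if_neg]
      rw [ZMod.natCast_eq_zero_iff]
      exact hps
  refine le_trans h1 (le_trans (sum_Icc_residue p S F hFnn) ?_)
  refine mul_le_mul_of_nonneg_left ?_ (by positivity)
  refine le_trans ?_ (sum_HR p R)
  have h2 : ∑ c : ZMod p, F c = ∑ c ∈ Finset.univ.erase (0 : ZMod p), HR p R (c₀ * c⁻¹) := by
    rw [← Finset.add_sum_erase _ _ (Finset.mem_univ (0 : ZMod p))]
    have : F 0 = 0 := by simp [hF]
    rw [this, zero_add]
    refine Finset.sum_congr rfl fun c hc => ?_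
    simp only [hF]
    rw [if_neg (Finset.ne_of_mem_erase hc)]
  rw [h2]
  have hinj : Set.InjOn (fun c : ZMod p => c₀ * c⁻¹)
      ((Finset.univ.erase (0 : ZMod p) : Finset (ZMod p)) : Set (ZMod p)) := by
    intro a _ b _ hab
    simp only at hab
    exact inv_injective (mul_left_cancel₀ hc hab)
  rw [← Finset.sum_image (f := fun x => HR p R x) (g := fun c : ZMod p => c₀ * c⁻¹) hinj]
  exact Finset.sum_le_sum_of_subset_of_nonneg (Finset.subset_univ _) (fun _ _ _ => HR_nonneg _ _ _)

end Pool.Agent.Work.MP_17736e_nt
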