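import Mathlib
import Pool.Agent.Work.MP_17736e_nt.CharSum

namespace Pool.Agent.Work.MP_17736e_nt

open Finset

/-- `exp (2 π i h x / m)` -/
noncomputable def ee (h : ℤ) (m x : ℕ) : ℂ :=
  Complex.exp (2 * Real.pi * Complex.I * ((h : ℂ) * x / m))

theorem ee_norm (h : ℤ) (m x : ℕ) : ‖ee h m x‖ = 1 := by
  unfold ee
  have : 2 * (Real.pi : ℂ) * Complex.I * ((h : ℂ) * x / m)
      = ((2 * Real.pi * ((h : ℝ) * x / m) : ℝ) : ℂ) * Complex.I := by
    push_cast; ring
  rw [this, Complex.norm_exp_ofReal_mul_I]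

theorem ee_add_mul (h : ℤ) (p s x w : ℕ) (hp : 0 < p) (hs : 0 < s) :
    ee h (p * s) (x + s * w) = ee h (p * s) x * ee h p w := by
  unfold ee
  rw [← Complex.exp_add]
  congr 1
  have hp' : (p : ℂ) ≠ 0 := by exact_mod_cast hp.ne'
  have hs' : (s : ℂ) ≠ 0 := by exact_mod_cast hs.ne'
  push_cast
  field_simp

theorem ee_one (h : ℤ) (w : ℕ) : ee h 1 w = 1 := by
  unfold ee
  rw [Nat.cast_one, div_one]
  have : 2 * (Real.pi : ℂ) * Complex.I * ((h : ℂ) * w) = ((h * w : ℤ) : ℂ) * (2 * Real.pi * Complex.I) := by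
    push_cast; ring
  rw [this, Complex.exp_int_mul_two_pi_mul_I]

theorem ee_modEq (h : ℤ) (m x y : ℕ) (hm : 0 < m) (hxy : x ≡ y [MOD m]) :
    ee h m x = ee h m y := by
  wlog hle : x ≤ y with H
  · exact (H h m y x hm hxy.symm (by omega)).symm
  obtain ⟨w, hw⟩ := (Nat.modEq_iff_dvd' hle).1 hxy
  have : y = x + m * w := by omega
  rw [this]
  have h1 := ee_add_mul h 1 m x w one_pos hm
  rw [one_mul, ee_one, mul_one] at h1
  exact h1.symm

theorem ee_std (h : ℤ) (p w : ℕ) [NeZero p] :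
    ee h p w = ZMod.stdAddChar ((h : ZMod p) * (w : ZMod p)) := by
  have := ZMod.stdAddChar_coe (N := p) (h * w)
  push_cast at this
  rw [this]
  unfold ee
  congr 1
  ring

theorem periodic_full (f : ℕ → ℂ) (T : ℕ) (hper : ∀ n, f (n + T) = f n) (q B : ℕ) :
    ∑ n ∈ range (T * q), f (B + n) = ∑ n ∈ range (T * q), f n := by
  have hperq : ∀ n, f (n + T * q) = f n := by
    intro n
    induction q with
    | zero => simp
    | succ q ih => rw [Nat.mul_succ, ← add_assoc, hper, ih]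
  induction B with
  | zero => simp
  | succ B ih =>
    rw [← ih]
    have h1 := Finset.sum_range_succ (fun n => f (B + n)) (T * q)
    have h2 := Finset.sum_range_succ' (fun n => f (B + n)) (T * q)
    rw [h1] at h2
    rw [hperq, add_zero] at h2
    have h3 := add_right_cancel h2
    rw [h3]
    refine Finset.sum_congr rfl fun n _ => ?_
    congr 1
    ring

theorem periodic_sum (f : ℕ → ℂ) (hf : ∀ n, ‖f n‖ ≤ 1) (T : ℕ) (hT : 0 < T)
    (hper : ∀ n, f (n + T) = f n) (R B : ℕ) :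
    ‖∑ n ∈ range R, f (B + n) - ∑ n ∈ range R, f n‖ ≤ 2 * T := by
  have hR : R = T * (R / T) + R % T := (Nat.div_add_mod R T).symm
  have hr : R % T < T := Nat.mod_lt _ hT
  set q := R / T
  set r := R % T
  rw [hR, Finset.sum_range_add, Finset.sum_range_add, periodic_full f T hper q B]
  have h1 : ‖∑ x ∈ range r, f (B + (T * q + x))‖ ≤ r := by
    refine le_trans (norm_sum_le _ _) ?_
    refine le_trans (Finset.sum_le_sum fun x _ => hf _) ?_
    simp
  have h2 : ‖∑ x ∈ range r, f (T * q + x)‖ ≤ r := by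
    refine le_trans (norm_sum_le _ _) ?_
    refine le_trans (Finset.sum_le_sum fun x _ => hf _) ?_
    simp
  have h3 : ∑ x ∈ range (T * q), f x + ∑ x ∈ range r, f (B + (T * q + x))
      - (∑ x ∈ range (T * q), f x + ∑ x ∈ range r, f (T * q + x))
      = ∑ x ∈ range r, f (B + (T * q + x)) - ∑ x ∈ range r, f (T * q + x) := by ring
  rw [h3]
  refine le_trans (norm_sub_le _ _) ?_
  have hrT : (r : ℝ) ≤ T := by exact_mod_cast hr.le
  linarith

theorem pow_dvd_aux (s n j : ℕ) (hs : 0 < s) (hn : s ≤ n) :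
    s ∣ 2 ^ n * (2 ^ (Nat.totient s * j) - 1) := by
  obtain ⟨b, s', hodd, hs'⟩ := Nat.exists_eq_two_pow_mul_odd hs.ne'
  have hb : b ≤ n := by
    have h1 : 2 ^ b ≤ s := by
      rw [hs']; exact Nat.le_mul_of_pos_right _ (Nat.pos_of_ne_zero (by rintro rfl; simp at hodd))
    have h2 : b < 2 ^ b := Nat.lt_two_pow_self
    omega
  have hdvd : Nat.totient s' ∣ Nat.totient s := Nat.totient_dvd_of_dvd (by rw [hs']; exact Dvd.intro_left _ rfl)
  obtain ⟨c, hc⟩ := hdvd
  have hcop : Nat.Coprime 2 s' := (Nat.coprime_two_left).2 hodd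
  have h1 : 2 ^ (Nat.totient s * j) ≡ 1 [MOD s'] := by
    rw [hc, mul_assoc, pow_mul]
    simpa using (Nat.ModEq.pow_totient hcop).pow (c * j)
  have h2 : s' ∣ 2 ^ (Nat.totient s * j) - 1 :=
    (Nat.modEq_iff_dvd' Nat.one_le_two_pow).1 h1.symm
  nth_rewrite 1 [hs']
  exact Nat.mul_dvd_mul (pow_dvd_pow 2 hb) h2

theorem key_bound (h : ℤ) (p s l N T : ℕ) [Fact p.Prime] (hp2 : 2 < p) (hs : 0 < s)
    (hps : ¬ p ∣ s) (hl : l.Prime) (hlt : l ∣ orderOf (2 : ZMod p)) (hls : ¬ l ∣ Nat.totient s)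
    (hT : 0 < T) (hper : ∀ n, p * s ≤ n → 2 ^ (n + T) ≡ 2 ^ n [MOD p * s]) :
    ‖∑ n ∈ Ico (p * s) (N + 1), ee h (p * s) (2 ^ n)‖ ≤ 2 * T +
      (1 / (l : ℝ)) * ∑ n ∈ Ico (p * s) (N + 1),
        HR p (rootSet p l) ((h : ZMod p) * 2 ^ n * ((s : ZMod p))⁻¹) := by
  have hpp : p.Prime := Fact.out
  have hp0 : 0 < p := hpp.pos
  have hm0 : 0 < p * s := Nat.mul_pos hp0 hs
  set t := orderOf (2 : ZMod p) with ht
  have h2ne : (2 : ZMod p) ≠ 0 := by
    intro h
    have : ((2 : ℕ) : ZMod p) = 0 := by exact_mod_cast h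
    rw [ZMod.natCast_eq_zero_iff] at this
    exact absurd (Nat.le_of_dvd (by norm_num) this) (by omega)
  have ht0 : t ≠ 0 := by
    have : 0 < t := by
      rw [ht, orderOf_pos_iff, isOfFinOrder_iff_pow_eq_one]
      exact ⟨p - 1, by omega, ZMod.pow_card_sub_one_eq_one h2ne⟩
    omega
  set τ := t / l * Nat.totient s with hτ
  set a : ZMod p := 2 ^ τ with ha
  have hao : orderOf a = l := by
    have h1 : orderOf ((2 : ZMod p) ^ (t / l)) = l := orderOf_pow_orderOf_div ht0 hlt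
    rw [ha, hτ, pow_mul]
    rw [Nat.Coprime.orderOf_pow, h1]
    rw [h1]
    exact (Nat.Prime.coprime_iff_not_dvd hl).2 hls
  have hl0 : (0 : ℝ) < l := by exact_mod_cast hl.pos
  -- the shifted sums
  set F : ℕ → ℂ := fun n => ee h (p * s) (2 ^ n) with hF
  have hFper : ∀ n, F (p * s + (n + T)) = F (p * s + n) := by
    intro n
    simp only [hF]
    refine ee_modEq h _ _ _ hm0 ?_
    have := hper (p * s + n) (by omega)
    rwa [add_assoc] at this
  have hshift : ∀ B : ℕ, ‖∑ n ∈ Ico (p * s) (N + 1), F (n + B) - ∑ n ∈ Ico (p * s) (N + 1), F n‖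
      ≤ 2 * T := by
    intro B
    rw [Finset.sum_Ico_eq_sum_range, Finset.sum_Ico_eq_sum_range]
    have := periodic_sum (fun n => F (p * s + n)) (fun n => (ee_norm _ _ _).le) T hT hFper
      (N + 1 - p * s) B
    have e : ∑ k ∈ range (N + 1 - p * s), F (p * s + k + B)
        = ∑ k ∈ range (N + 1 - p * s), F (p * s + (B + k)) := by
      refine Finset.sum_congr rfl fun k _ => ?_
      congr 1; ring
    rw [e]
    exact this
  have hinner : ∀ n ∈ Ico (p * s) (N + 1), ‖∑ i ∈ range l, F (n + i * τ)‖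
      = HR p (rootSet p l) ((h : ZMod p) * 2 ^ n * ((s : ZMod p))⁻¹) := by
    intro n hn
    rw [Finset.mem_Ico] at hn
    have hsn : s ≤ n := le_trans (Nat.le_mul_of_pos_left s hp0) hn.1
    have hsne : (s : ZMod p) ≠ 0 := by
      rw [Ne, ZMod.natCast_eq_zero_iff]; exact hps
    set c : ZMod p := (h : ZMod p) * 2 ^ n * ((s : ZMod p))⁻¹ with hc
    have hterm : ∀ i, F (n + i * τ) = (F n * ZMod.stdAddChar (-c)) * ZMod.stdAddChar (c * a ^ i) := by
      intro i
      have hd : s ∣ 2 ^ n * (2 ^ (i * τ) - 1) := by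
        have := pow_dvd_aux s n (t / l * i) hs hsn
        have e : Nat.totient s * (t / l * i) = i * τ := by rw [hτ]; ring
        rwa [e] at this
      obtain ⟨w, hw⟩ := hd
      have hpow : 2 ^ (n + i * τ) = 2 ^ n + s * w := by
        rw [← hw, Nat.mul_sub, mul_one, pow_add]
        have : 2 ^ n ≤ 2 ^ n * 2 ^ (i * τ) := Nat.le_mul_of_pos_right _ (by positivity)
        omega
      have hwz : (w : ZMod p) = ((s : ZMod p))⁻¹ * (2 ^ n * (a ^ i - 1)) := by
        have h1 : ((2 ^ n * (2 ^ (i * τ) - 1) : ℕ) : ZMod p) = ((s * w : ℕ) : ZMod p) := by rw [hw]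
        rw [Nat.cast_mul, Nat.cast_mul, Nat.cast_sub Nat.one_le_two_pow] at h1
        push_cast at h1
        have h2 : (2 : ZMod p) ^ (i * τ) = a ^ i := by rw [ha, ← pow_mul, mul_comm]
        rw [h2] at h1
        rw [h1, ← mul_assoc, inv_mul_cancel₀ hsne, one_mul]
      simp only [hF]
      rw [hpow, ee_add_mul h p s _ w hp0 hs, ee_std h p w, hwz, mul_assoc,
        ← AddChar.map_add_eq_mul]
      congr 2
      rw [hc]
      ring
    rw [Finset.sum_congr rfl (fun i _ => hterm i), ← Finset.mul_sum]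
    rw [sum_pow_eq p l hl.pos a hao (fun x => ZMod.stdAddChar (c * x))]
    rw [norm_mul, norm_mul]
    have hn1 : ‖F n‖ = 1 := ee_norm _ _ _
    have hn2 : ‖(ZMod.stdAddChar (-c) : ℂ)‖ = 1 := AddChar.norm_apply _ _
    rw [hn1, hn2, one_mul, one_mul]
    rfl
  -- combine
  have hsum : (l : ℂ) * ∑ n ∈ Ico (p * s) (N + 1), F n
      = ∑ n ∈ Ico (p * s) (N + 1), ∑ i ∈ range l, F (n + i * τ)
        - ∑ i ∈ range l, (∑ n ∈ Ico (p * s) (N + 1), F (n + i * τ)
            - ∑ n ∈ Ico (p * s) (N + 1), F n) := by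
    rw [Finset.sum_sub_distrib, Finset.sum_const, Finset.card_range, nsmul_eq_mul,
      Finset.sum_comm]
    ring
  have hnorm : (l : ℝ) * ‖∑ n ∈ Ico (p * s) (N + 1), F n‖ ≤
      ∑ n ∈ Ico (p * s) (N + 1), HR p (rootSet p l) ((h : ZMod p) * 2 ^ n * ((s : ZMod p))⁻¹)
        + l * (2 * T) := by
    have h1 : ‖(l : ℂ) * ∑ n ∈ Ico (p * s) (N + 1), F n‖
        = (l : ℝ) * ‖∑ n ∈ Ico (p * s) (N + 1), F n‖ := by
      rw [norm_mul, Complex.norm_natCast]
    rw [← h1, hsum]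
    refine le_trans (norm_sub_le _ _) (add_le_add ?_ ?_)
    · refine le_trans (norm_sum_le _ _) (le_of_eq ?_)
      exact Finset.sum_congr rfl hinner
    · refine le_trans (norm_sum_le _ _) ?_
      refine le_trans (Finset.sum_le_sum fun i _ => hshift (i * τ)) ?_
      rw [Finset.sum_const, Finset.card_range, nsmul_eq_mul]
  have : ‖∑ n ∈ Ico (p * s) (N + 1), F n‖ ≤ (∑ n ∈ Ico (p * s) (N + 1),
      HR p (rootSet p l) ((h : ZMod p) * 2 ^ n * ((s : ZMod p))⁻¹) + l * (2 * T)) / l := by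
    rw [le_div_iff₀ hl0]; linarith
  refine le_trans this (le_of_eq ?_)
  field_simp
  ring

end Pool.Agent.Work.MP_17736e_nt
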