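import Mathlib

namespace Pool.Agent.Work.MP_17736e_nt

open Finset

/-- If `m` has at least `k ≥ 1` distinct odd prime factors, then `n ↦ 2 ^ n mod m` (`n ≥ m`) has a
period `T` with `T * 2 ^ (k - 1) ≤ m`. -/
theorem exists_period (m k : ℕ) (hm : 0 < m) (hk : 1 ≤ k) (Q : Finset ℕ)
    (hQ : ∀ q ∈ Q, q.Prime ∧ q ≠ 2 ∧ q ∣ m) (hcard : k ≤ Q.card) :
    ∃ T : ℕ, 0 < T ∧ T * 2 ^ (k - 1) ≤ m ∧ ∀ n, m ≤ n → 2 ^ (n + T) ≡ 2 ^ n [MOD m] := by
  classical
  set P : Finset ℕ := m.primeFactors.erase 2 with hP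
  have hQP : Q ⊆ P := by
    intro q hq
    obtain ⟨h1, h2, h3⟩ := hQ q hq
    rw [hP, Finset.mem_erase, Nat.mem_primeFactors]
    exact ⟨h2, h1, h3, hm.ne'⟩
  have hkP : k ≤ P.card := le_trans hcard (Finset.card_le_card hQP)
  set a : ℕ → ℕ := fun q => m.factorization q with ha
  have hprime : ∀ q ∈ P, q.Prime := fun q hq =>
    Nat.prime_of_mem_primeFactors (Finset.mem_of_mem_erase hq)
  have hne2 : ∀ q ∈ P, q ≠ 2 := fun q hq => Finset.ne_of_mem_erase hq
  have hapos : ∀ q ∈ P, 1 ≤ a q := by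
    intro q hq
    have hmem := Finset.mem_of_mem_erase hq
    exact (hprime q hq).factorization_pos_of_dvd hm.ne' (Nat.dvd_of_mem_primeFactors hmem)
  have hgt : ∀ q ∈ P, 2 < q ^ a q := by
    intro q hq
    have h2 : 2 < q := lt_of_le_of_ne (hprime q hq).two_le (Ne.symm (hne2 q hq))
    calc 2 < q := h2
      _ = q ^ 1 := (pow_one q).symm
      _ ≤ q ^ a q := Nat.pow_le_pow_right (hprime q hq).pos (hapos q hq)
  have heven : ∀ q ∈ P, 2 * (Nat.totient (q ^ a q) / 2) = Nat.totient (q ^ a q) := by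
    intro q hq
    exact Nat.mul_div_cancel' (Nat.totient_even (hgt q hq)).two_dvd
  set T : ℕ := 2 * ∏ q ∈ P, (Nat.totient (q ^ a q) / 2) with hT
  have hTpos : 0 < T := by
    rw [hT]
    refine Nat.mul_pos (by norm_num) (Finset.prod_pos ?_)
    intro q hq
    have h1 := heven q hq
    have h2 : 0 < Nat.totient (q ^ a q) := Nat.totient_pos.2 (by have := hgt q hq; omega)
    omega
  have hTmul : T * 2 ^ P.card ≤ 2 * m := by
    have e1 : T * 2 ^ P.card = 2 * ∏ q ∈ P, Nat.totient (q ^ a q) := by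
      rw [hT, mul_assoc, ← Finset.prod_const, ← Finset.prod_mul_distrib]
      congr 1
      refine Finset.prod_congr rfl fun q hq => ?_
      rw [mul_comm, heven q hq]
    have e2 : ∏ q ∈ P, Nat.totient (q ^ a q) ≤ ∏ q ∈ P, q ^ a q :=
      Finset.prod_le_prod' fun q _ => Nat.totient_le _
    have e3 : ∏ q ∈ P, q ^ a q ≤ m := by
      have : ∏ q ∈ m.primeFactors, q ^ a q = m := Nat.prod_factorization_pow_eq_self hm.ne'
      calc ∏ q ∈ P, q ^ a q ≤ ∏ q ∈ m.primeFactors, q ^ a q := by
            refine Finset.prod_le_prod_of_subset_of_one_le' (Finset.erase_subset _ _) ?_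
            intro q hq _
            exact Nat.one_le_pow _ _ (Nat.prime_of_mem_primeFactors hq).pos
        _ = m := this
    rw [e1]
    exact Nat.mul_le_mul_left 2 (le_trans e2 e3)
  refine ⟨T, hTpos, ?_, ?_⟩
  · have h1 : T * 2 ^ (k - 1) * 2 ≤ T * 2 ^ P.card := by
      rw [mul_assoc, ← pow_succ]
      refine Nat.mul_le_mul_left T (Nat.pow_le_pow_right (by norm_num) ?_)
      omega
    omega
  · intro n hn
    have hdvd : m ∣ 2 ^ n * (2 ^ T - 1) := by
      rw [Nat.dvd_iff_prime_pow_dvd_dvd]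
      intro q j hq hj
      by_cases hq2 : q = 2
      · subst hq2
        have hjm : 2 ^ j ≤ m := Nat.le_of_dvd hm hj
        have hjn : j ≤ n := by
          have : j < 2 ^ j := Nat.lt_two_pow_self
          omega
        exact Dvd.dvd.mul_right (pow_dvd_pow 2 hjn) _
      · rcases Nat.eq_zero_or_pos j with hj0 | hj0
        · subst hj0; simp
        · have hqm : q ∣ m := dvd_trans (dvd_pow_self q hj0.ne') hj
          have hqP : q ∈ P := by
            rw [hP, Finset.mem_erase, Nat.mem_primeFactors]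
            exact ⟨hq2, hq, hqm, hm.ne'⟩
          have hja : j ≤ a q := (hq.pow_dvd_iff_le_factorization hm.ne').1 hj
          have hcop : Nat.Coprime 2 (q ^ a q) := by
            refine Nat.Coprime.pow_right _ ?_
            rw [Nat.coprime_primes Nat.prime_two hq]
            exact Ne.symm hq2
          have htot : 2 ^ Nat.totient (q ^ a q) ≡ 1 [MOD q ^ a q] := Nat.ModEq.pow_totient hcop
          have hdT : Nat.totient (q ^ a q) ∣ T := by
            rw [← heven q hqP, hT]
            exact Nat.mul_dvd_mul_left 2 (Finset.dvd_prod_of_mem _ hqP)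
          obtain ⟨c, hc⟩ := hdT
          have hT1 : 2 ^ T ≡ 1 [MOD q ^ a q] := by
            rw [hc, pow_mul]
            simpa using htot.pow c
          have h2 : q ^ a q ∣ 2 ^ T - 1 := by
            have := (Nat.modEq_iff_dvd' (Nat.one_le_two_pow)).1 hT1.symm
            exact this
          exact Dvd.dvd.mul_left (dvd_trans (pow_dvd_pow q hja) h2) _
    have hle : 2 ^ n ≤ 2 ^ (n + T) := Nat.pow_le_pow_right (by norm_num) (by omega)
    refine ((Nat.modEq_iff_dvd' hle).2 ?_).symm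
    have : 2 ^ (n + T) - 2 ^ n = 2 ^ n * (2 ^ T - 1) := by
      rw [Nat.mul_sub, pow_add, mul_one]
    rw [this]
    exact hdvd

end Pool.Agent.Work.MP_17736e_nt
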