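import Mathlib
import Pool.Agent.Work.MP_17736e_nt.Period
import Pool.Agent.Work.MP_17736e_nt.EK
import Pool.Agent.Work.MP_17736e_nt.Count
import Pool.Agent.Work.MP_17736e_nt.Key

namespace Pool.Agent.Work.MP_17736e_nt

open Finset

/-- the exponential sum over the group of `l`-th roots of unity mod `p` at `h 2^n / s` -/
noncomputable def GG (h : ℤ) (p l n s : ℕ) : ℝ :=
  if hp : p.Prime then
    (haveI : Fact p.Prime := ⟨hp⟩
     HR p (rootSet p l) ((h : ZMod p) * 2 ^ n * ((s : ZMod p))⁻¹))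
  else 0

theorem GG_nonneg (h : ℤ) (p l n s : ℕ) : 0 ≤ GG h p l n s := by
  unfold GG
  split_ifs with hp
  · have : Fact p.Prime := ⟨hp⟩
    exact HR_nonneg _ _ _
  · exact le_refl _

theorem GG_eq (h : ℤ) (p l n s : ℕ) [hp : Fact p.Prime] :
    GG h p l n s = HR p (rootSet p l) ((h : ZMod p) * 2 ^ n * ((s : ZMod p))⁻¹) := by
  unfold GG
  rw [dif_pos hp.out]

theorem sum_GG (h : ℤ) (p l n S : ℕ) (hp : p.Prime) (hp2 : 2 < p) (hl : 0 < l)
    (hh : ¬ (p : ℤ) ∣ h) :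
    ∑ s ∈ (Icc 1 S).filter (fun s => ¬ p ∣ s), GG h p l n s
      ≤ ((S / p : ℕ) + 1) * (p * √(l : ℝ)) := by
  have : Fact p.Prime := ⟨hp⟩
  simp_rw [GG_eq]
  have hc : (h : ZMod p) * 2 ^ n ≠ 0 := by
    refine mul_ne_zero ?_ (pow_ne_zero _ ?_)
    · rw [Ne, ZMod.intCast_zmod_eq_zero_iff_dvd]; exact hh
    · intro h
      have : ((2 : ℕ) : ZMod p) = 0 := by exact_mod_cast h
      rw [ZMod.natCast_eq_zero_iff] at this
      exact absurd (Nat.le_of_dvd (by norm_num) this) (by omega)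
  refine le_trans (sum_inv_residue p S (rootSet p l) _ hc) ?_
  refine mul_le_mul_of_nonneg_left ?_ (by positivity)
  refine mul_le_mul_of_nonneg_left (Real.sqrt_le_sqrt ?_) (by positivity)
  exact_mod_cast card_rootSet_le p l hl

/-- the chosen large prime factor of the order of `2` mod `p` -/
noncomputable def lp (K p : ℕ) : ℕ := by
  classical
  exact if hp : ∃ l : ℕ, l.Prime ∧ K ^ 12 ≤ l ∧ l ∣ orderOf (2 : ZMod p) then hp.choose else 2

theorem lp_spec (K p : ℕ) (hp : p ∈ PK K) :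
    (lp K p).Prime ∧ K ^ 12 ≤ lp K p ∧ lp K p ∣ orderOf (2 : ZMod p) := by
  classical
  rw [mem_PK] at hp
  unfold lp
  rw [dif_pos hp.2.2]
  exact hp.2.2.choose_spec

theorem two_lt_of_mem_PK (K p : ℕ) (hK : 1 ≤ K) (hp : p ∈ PK K) : 2 < p := by
  rw [mem_PK] at hp
  have h2 : 4 ^ 1 ≤ 4 ^ (K ^ 3) := Nat.pow_le_pow_right (by norm_num)
      (Nat.one_le_pow _ _ (by omega))
  omega

theorem lp_lt (K p : ℕ) (hK : 1 ≤ K) (hp : p ∈ PK K) : lp K p < p := by
  have h1 := (lp_spec K p hp).2.2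
  have h2 := two_lt_of_mem_PK K p hK hp
  have hpp : p.Prime := by rw [mem_PK] at hp; exact hp.2.1
  have : Fact p.Prime := ⟨hpp⟩
  have h2ne : (2 : ZMod p) ≠ 0 := by
    intro h
    have : ((2 : ℕ) : ZMod p) = 0 := by exact_mod_cast h
    rw [ZMod.natCast_eq_zero_iff] at this
    exact absurd (Nat.le_of_dvd (by norm_num) this) (by omega)
  have h3 : orderOf (2 : ZMod p) ∣ p - 1 :=
    orderOf_dvd_of_pow_eq_one (ZMod.pow_card_sub_one_eq_one h2ne)
  have h4 := Nat.le_of_dvd (by omega) (dvd_trans h1 h3)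
  omega

/-- The exponential sum for one `m`. -/
noncomputable def SS (h : ℤ) (N m : ℕ) : ℝ := ‖∑ n ∈ Ico m (N + 1), ee h m (2 ^ n)‖

theorem SS_le (h : ℤ) (N m : ℕ) (hm : 1 ≤ m) : SS h N m ≤ N := by
  unfold SS
  refine le_trans (norm_sum_le _ _) ?_
  refine le_trans (Finset.sum_le_sum fun n _ => (ee_norm h m _).le) ?_
  rw [Finset.sum_const, Nat.card_Ico, nsmul_eq_mul, mul_one]
  have : N + 1 - m ≤ N := by omega
  exact_mod_cast this

theorem SS_nonneg (h : ℤ) (N m : ℕ) : 0 ≤ SS h N m := norm_nonneg _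

/-- pointwise bound -/
theorem SS_pointwise (h : ℤ) (K k N m : ℕ) (hK : 1 ≤ K) (hk : 1 ≤ k) (hm : 1 ≤ m) (hmN : m ≤ N) :
    SS h N m ≤ (if ((PK K).filter (fun p => p ∣ m)).card < k then (N : ℝ) else 0)
      + ∑ p ∈ PK K, (if p ∣ m ∧ (p ∣ m / p ∨ lp K p ∣ Nat.totient (m / p)) then (N : ℝ) else 0)
      + 4 * N / 2 ^ k
      + ∑ p ∈ PK K, (if p ∣ m ∧ ¬ p ∣ m / p then
          (1 / (lp K p : ℝ)) * ∑ n ∈ Ico m (N + 1), GG h p (lp K p) n (m / p) else 0) := by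
  classical
  have hN0 : (0 : ℝ) ≤ N := Nat.cast_nonneg N
  have t1 : 0 ≤ (if ((PK K).filter (fun p => p ∣ m)).card < k then (N : ℝ) else 0) := by
    split_ifs <;> simp
  have t2' : ∀ p ∈ PK K, 0 ≤ (if p ∣ m ∧ (p ∣ m / p ∨ lp K p ∣ Nat.totient (m / p)) then (N : ℝ)
      else 0) := by
    intro p _; split_ifs <;> simp
  have t2 := Finset.sum_nonneg t2'
  have t3 : 0 ≤ 4 * (N : ℝ) / 2 ^ k := by positivity
  have t4' : ∀ p ∈ PK K, 0 ≤ (if p ∣ m ∧ ¬ p ∣ m / p then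
          (1 / (lp K p : ℝ)) * ∑ n ∈ Ico m (N + 1), GG h p (lp K p) n (m / p) else 0) := by
    intro p _
    split_ifs
    · exact mul_nonneg (by positivity) (Finset.sum_nonneg fun _ _ => GG_nonneg _ _ _ _ _)
    · exact le_refl _
  have t4 := Finset.sum_nonneg t4'
  by_cases hB1 : ((PK K).filter (fun p => p ∣ m)).card < k
  · rw [if_pos hB1] at t1 ⊢
    have := SS_le h N m hm
    linarith
  · rw [if_neg hB1]
    by_cases hB3 : ∃ p ∈ PK K, p ∣ m ∧ (p ∣ m / p ∨ lp K p ∣ Nat.totient (m / p))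
    · obtain ⟨p, hp, hpm⟩ := hB3
      have h1 : (N : ℝ) ≤ ∑ p ∈ PK K,
          (if p ∣ m ∧ (p ∣ m / p ∨ lp K p ∣ Nat.totient (m / p)) then (N : ℝ) else 0) := by
        refine le_trans (le_of_eq ?_) (Finset.single_le_sum t2' hp)
        rw [if_pos hpm]
      have := SS_le h N m hm
      linarith
    · push Not at hB1 hB3
      have hne : ((PK K).filter (fun p => p ∣ m)).Nonempty := by
        rw [← Finset.card_pos]; omega
      obtain ⟨p, hp⟩ := hne
      rw [Finset.mem_filter] at hp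
      obtain ⟨hpP, hpm⟩ := hp
      obtain ⟨hnp, hnl⟩ := hB3 p hpP hpm
      obtain ⟨hl1, hl2, hl3⟩ := lp_spec K p hpP
      have hpp : p.Prime := by rw [mem_PK] at hpP; exact hpP.2.1
      have : Fact p.Prime := ⟨hpp⟩
      obtain ⟨T, hT0, hTm, hper⟩ := exists_period m k (by omega) hk
        ((PK K).filter (fun p => p ∣ m)) (by
          intro q hq
          rw [Finset.mem_filter] at hq
          refine ⟨?_, ?_, hq.2⟩
          · have := hq.1; rw [mem_PK] at this; exact this.2.1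
          · have := two_lt_of_mem_PK K q hK hq.1; omega) hB1
      have hms : p * (m / p) = m := Nat.mul_div_cancel' hpm
      have hs0 : 0 < m / p := by
        rcases Nat.eq_zero_or_pos (m / p) with h0 | h0
        · rw [h0, mul_zero] at hms; omega
        · exact h0
      have hkey := key_bound h p (m / p) (lp K p) N T (two_lt_of_mem_PK K p hK hpP) hs0 hnp hl1
        hl3 hnl hT0 (by rw [hms]; exact hper)
      simp_rw [← GG_eq] at hkey
      rw [hms] at hkey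
      have h1 : (1 / (lp K p : ℝ)) * ∑ n ∈ Ico m (N + 1), GG h p (lp K p) n (m / p)
          ≤ ∑ p ∈ PK K, (if p ∣ m ∧ ¬ p ∣ m / p then
          (1 / (lp K p : ℝ)) * ∑ n ∈ Ico m (N + 1), GG h p (lp K p) n (m / p) else 0) := by
        refine le_trans (le_of_eq ?_) (Finset.single_le_sum t4' hpP)
        rw [if_pos ⟨hpm, hnp⟩]
      have h2 : 2 * (T : ℝ) ≤ 4 * N / 2 ^ k := by
        rw [le_div_iff₀ (by positivity)]
        have h3 : T * 2 ^ k ≤ 2 * N := by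
          obtain ⟨k', rfl⟩ : ∃ k', k = k' + 1 := ⟨k - 1, by omega⟩
          rw [Nat.add_sub_cancel] at hTm
          rw [pow_succ]
          calc T * (2 ^ k' * 2) = (T * 2 ^ k') * 2 := by ring
            _ ≤ N * 2 := Nat.mul_le_mul_right 2 (le_trans hTm hmN)
            _ = 2 * N := by ring
        have h4 : (T : ℝ) * 2 ^ k ≤ 2 * N := by exact_mod_cast h3
        linarith
      have h5 : SS h N m = ‖∑ n ∈ Ico m (N + 1), ee h m (2 ^ n)‖ := rfl
      rw [h5]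
      linarith

theorem sum_fiber (P : ℕ → ℕ → ℝ) (p N : ℕ) (hp : 0 < p) (hP : ∀ m s, 0 ≤ P m s) :
    ∑ m ∈ Icc 1 N, (if p ∣ m ∧ ¬ p ∣ m / p then P m (m / p) else 0)
      ≤ ∑ s ∈ (Icc 1 (N / p)).filter (fun s => ¬ p ∣ s), P (p * s) s := by
  classical
  rw [← Finset.sum_filter]
  have hinj : Set.InjOn (fun s => p * s)
      (((Icc 1 (N / p)).filter (fun s => ¬ p ∣ s) : Finset ℕ) : Set ℕ) := by
    intro a _ b _ hab
    exact Nat.eq_of_mul_eq_mul_left hp hab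
  have h1 : ∑ s ∈ (Icc 1 (N / p)).filter (fun s => ¬ p ∣ s), P (p * s) s
      = ∑ m ∈ ((Icc 1 (N / p)).filter (fun s => ¬ p ∣ s)).image (fun s => p * s), P m (m / p) := by
    rw [Finset.sum_image hinj]
    refine Finset.sum_congr rfl fun s _ => ?_
    rw [Nat.mul_div_cancel_left s hp]
  rw [h1]
  refine Finset.sum_le_sum_of_subset_of_nonneg ?_ (fun m _ _ => hP _ _)
  intro m hm
  rw [Finset.mem_filter, Finset.mem_Icc] at hm
  rw [Finset.mem_image]
  obtain ⟨⟨hm1, hm2⟩, hpm, hnp⟩ := hm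
  refine ⟨m / p, ?_, Nat.mul_div_cancel' hpm⟩
  rw [Finset.mem_filter, Finset.mem_Icc]
  refine ⟨⟨?_, Nat.div_le_div_right hm2⟩, hnp⟩
  rw [Nat.le_div_iff_mul_le hp]
  have := Nat.le_of_dvd (by omega) hpm
  omega

theorem main_bound (h : ℤ) (K k N : ℕ) (hK : 1 ≤ K) (hk : 1 ≤ k)
    (hKN : 4 ^ (2 * K ^ 4) ≤ N) (hh : h ≠ 0) (hhK : |h| < 4 ^ (K ^ 3))
    (hE : (k : ℝ) < ∑ p ∈ PK K, (1 / (p : ℝ))) :
    ∑ m ∈ Icc 1 N, SS h N m ≤ (N : ℝ) ^ 2 *
      (3 * (∑ p ∈ PK K, (1 / (p : ℝ))) / ((∑ p ∈ PK K, (1 / (p : ℝ))) - k) ^ 2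
        + (∑ p ∈ PK K, (1 / (p : ℝ))) * (3 + Real.log N) / K ^ 12
        + 4 / 2 ^ k + 2 * (∑ p ∈ PK K, (1 / (p : ℝ))) / K ^ 6) := by
  classical
  set E : ℝ := ∑ p ∈ PK K, (1 / (p : ℝ)) with hEdef
  have hN1 : 1 ≤ N := le_trans (Nat.one_le_pow _ _ (by norm_num)) hKN
  have hN0 : (0 : ℝ) < N := by exact_mod_cast hN1
  have hE0 : 0 ≤ E := Finset.sum_nonneg fun p _ => by positivity
  have hKR : (0 : ℝ) < K := by exact_mod_cast hK
  have hPfacts : ∀ p ∈ PK K, p.Prime ∧ 2 < p ∧ 4 ^ (K ^ 3) < p ∧ p ≤ 4 ^ (K ^ 4) := by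
    intro p hp
    have h2 := two_lt_of_mem_PK K p hK hp
    rw [mem_PK] at hp
    exact ⟨hp.2.1, h2, hp.1.1, hp.1.2⟩
  have hsq : ∀ p ∈ PK K, p * p ≤ N := by
    intro p hp
    obtain ⟨_, _, _, h4⟩ := hPfacts p hp
    calc p * p ≤ 4 ^ (K ^ 4) * 4 ^ (K ^ 4) := Nat.mul_le_mul h4 h4
      _ = 4 ^ (2 * K ^ 4) := by rw [← pow_add]; congr 1; ring
      _ ≤ N := hKN
  have hcardP : (PK K).card ≤ N := by
    have h1 : PK K ⊆ Icc 1 N := by
      intro p hp
      rw [Finset.mem_Icc]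
      obtain ⟨h1, h2, _⟩ := hPfacts p hp
      have := hsq p hp
      exact ⟨h1.one_le, le_trans (Nat.le_mul_of_pos_left p h1.pos) this⟩
    have := Finset.card_le_card h1
    simpa using this
  have hstep : ∑ m ∈ Icc 1 N, SS h N m ≤ ∑ m ∈ Icc 1 N,
      ((if ((PK K).filter (fun p => p ∣ m)).card < k then (N : ℝ) else 0)
      + ∑ p ∈ PK K, (if p ∣ m ∧ (p ∣ m / p ∨ lp K p ∣ Nat.totient (m / p)) then (N : ℝ) else 0)
      + 4 * N / 2 ^ k
      + ∑ p ∈ PK K, (if p ∣ m ∧ ¬ p ∣ m / p then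
          (1 / (lp K p : ℝ)) * ∑ n ∈ Ico m (N + 1), GG h p (lp K p) n (m / p) else 0)) := by
    refine Finset.sum_le_sum fun m hm => ?_
    rw [Finset.mem_Icc] at hm
    exact SS_pointwise h K k N m hK hk hm.1 hm.2
  refine le_trans hstep ?_
  rw [Finset.sum_add_distrib, Finset.sum_add_distrib, Finset.sum_add_distrib]
  -- part 1
  have p1 : ∑ m ∈ Icc 1 N, (if ((PK K).filter (fun p => p ∣ m)).card < k then (N : ℝ) else 0)
      ≤ (N : ℝ) ^ 2 * (3 * E / (E - k) ^ 2) := by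
    have h1 := turan_card (PK K) (fun p hp => (hPfacts p hp).1) N k hcardP hE
    rw [← hEdef] at h1
    rw [← Finset.sum_filter, Finset.sum_const, nsmul_eq_mul]
    have hpos : 0 < (E - k) ^ 2 := by
      have : 0 < E - k := by linarith
      positivity
    have h2 : (((Icc 1 N).filter (fun m => ((PK K).filter (fun p => p ∣ m)).card < k)).card : ℝ)
        ≤ 3 * N * E / (E - k) ^ 2 := by
      rw [le_div_iff₀ hpos]; exact h1
    calc _ ≤ 3 * N * E / (E - k) ^ 2 * N := mul_le_mul_of_nonneg_right h2 hN0.le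
      _ = (N : ℝ) ^ 2 * (3 * E / (E - k) ^ 2) := by ring
  -- part 2
  have p2 : ∑ m ∈ Icc 1 N, ∑ p ∈ PK K,
      (if p ∣ m ∧ (p ∣ m / p ∨ lp K p ∣ Nat.totient (m / p)) then (N : ℝ) else 0)
      ≤ (N : ℝ) ^ 2 * (E * (3 + Real.log N) / K ^ 12) := by
    rw [Finset.sum_comm]
    have h1 : ∀ p ∈ PK K, ∑ m ∈ Icc 1 N,
        (if p ∣ m ∧ (p ∣ m / p ∨ lp K p ∣ Nat.totient (m / p)) then (N : ℝ) else 0)
        ≤ (1 / (p : ℝ)) * ((N : ℝ) ^ 2 * ((3 + Real.log N) / K ^ 12)) := by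
      intro p hp
      obtain ⟨hl1, hl2, hl3⟩ := lp_spec K p hp
      have h2 := card_bad p (lp K p) N (hPfacts p hp).1 hl1 (lp_lt K p hK hp)
      rw [← Finset.sum_filter, Finset.sum_const, nsmul_eq_mul]
      have hlog : 0 ≤ Real.log N := Real.log_natCast_nonneg N
      have h3 : (3 + Real.log N) / (lp K p : ℝ) ≤ (3 + Real.log N) / (K : ℝ) ^ 12 := by
        refine div_le_div_of_nonneg_left (by positivity) (by positivity) ?_
        exact_mod_cast hl2
      calc _ ≤ (N : ℝ) * (1 / (p : ℝ)) * ((3 + Real.log N) / (lp K p : ℝ)) * N :=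
            mul_le_mul_of_nonneg_right h2 hN0.le
        _ ≤ (N : ℝ) * (1 / (p : ℝ)) * ((3 + Real.log N) / (K : ℝ) ^ 12) * N := by
            refine mul_le_mul_of_nonneg_right ?_ hN0.le
            exact mul_le_mul_of_nonneg_left h3 (by positivity)
        _ = (1 / (p : ℝ)) * ((N : ℝ) ^ 2 * ((3 + Real.log N) / K ^ 12)) := by ring
    refine le_trans (Finset.sum_le_sum h1) ?_
    rw [← Finset.sum_mul, ← hEdef]
    exact le_of_eq (by ring)
  -- part 3
  have p3 : ∑ m ∈ Icc 1 N, 4 * (N : ℝ) / 2 ^ k = (N : ℝ) ^ 2 * (4 / 2 ^ k) := by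
    rw [Finset.sum_const, Nat.card_Icc, nsmul_eq_mul, Nat.add_sub_cancel]
    ring
  -- part 4
  have p4 : ∑ m ∈ Icc 1 N, ∑ p ∈ PK K, (if p ∣ m ∧ ¬ p ∣ m / p then
          (1 / (lp K p : ℝ)) * ∑ n ∈ Ico m (N + 1), GG h p (lp K p) n (m / p) else 0)
      ≤ (N : ℝ) ^ 2 * (2 * E / K ^ 6) := by
    rw [Finset.sum_comm]
    have h1 : ∀ p ∈ PK K, ∑ m ∈ Icc 1 N, (if p ∣ m ∧ ¬ p ∣ m / p then
          (1 / (lp K p : ℝ)) * ∑ n ∈ Ico m (N + 1), GG h p (lp K p) n (m / p) else 0)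
        ≤ (1 / (p : ℝ)) * ((N : ℝ) ^ 2 * (2 / K ^ 6)) := by
      intro p hp
      obtain ⟨hpp, hp2, hpK, _⟩ := hPfacts p hp
      obtain ⟨hl1, hl2, hl3⟩ := lp_spec K p hp
      have hp0 : (0 : ℝ) < p := by exact_mod_cast hpp.pos
      have hl0 : (0 : ℝ) < lp K p := by exact_mod_cast hl1.pos
      have h2 := sum_fiber (fun m s => (1 / (lp K p : ℝ)) *
        ∑ n ∈ Ico m (N + 1), GG h p (lp K p) n s) p N hpp.pos (fun m s =>
          mul_nonneg (by positivity) (Finset.sum_nonneg fun _ _ => GG_nonneg _ _ _ _ _))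
      refine le_trans h2 ?_
      rw [← Finset.mul_sum]
      have h3 : ∑ s ∈ (Icc 1 (N / p)).filter (fun s => ¬ p ∣ s),
          ∑ n ∈ Ico (p * s) (N + 1), GG h p (lp K p) n s
          ≤ ∑ n ∈ Icc 1 N, ∑ s ∈ (Icc 1 (N / p)).filter (fun s => ¬ p ∣ s),
            GG h p (lp K p) n s := by
        rw [Finset.sum_comm (s := Icc 1 N)]
        refine Finset.sum_le_sum fun s hs => ?_
        rw [Finset.mem_filter, Finset.mem_Icc] at hs
        refine Finset.sum_le_sum_of_subset_of_nonneg ?_ (fun _ _ _ => GG_nonneg _ _ _ _ _)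
        intro n hn
        rw [Finset.mem_Ico] at hn
        rw [Finset.mem_Icc]
        have : 1 ≤ p * s := Nat.mul_pos hpp.pos (by omega)
        omega
      have hph : ¬ (p : ℤ) ∣ h := by
        intro hd
        have h4 := Int.le_of_dvd (abs_pos.2 hh) ((dvd_abs _ _).2 hd)
        have h5 : ((4 ^ (K ^ 3) : ℕ) : ℤ) < p := by exact_mod_cast hpK
        push_cast at h5
        linarith
      have h4 : ∀ n ∈ Icc 1 N, ∑ s ∈ (Icc 1 (N / p)).filter (fun s => ¬ p ∣ s),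
            GG h p (lp K p) n s ≤ (2 * N / (p : ℝ)) * √(lp K p : ℝ) := by
        intro n _
        refine le_trans (sum_GG h p (lp K p) n (N / p) hpp hp2 hl1.pos hph) ?_
        have h5 : (((N / p / p : ℕ) : ℝ) + 1) ≤ 2 * N / (p * p) := by
          have h6 : ((N / p / p : ℕ) : ℝ) ≤ (N : ℝ) / (p * p) := by
            rw [Nat.div_div_eq_div_mul]
            refine le_trans Nat.cast_div_le ?_
            push_cast
            exact le_refl _
          have h7 : (1 : ℝ) ≤ (N : ℝ) / (p * p) := by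
            rw [le_div_iff₀ (by positivity), one_mul]
            exact_mod_cast hsq p hp
          have : 2 * (N : ℝ) / (p * p) = (N : ℝ) / (p * p) + (N : ℝ) / (p * p) := by ring
          linarith
        calc (((N / p / p : ℕ) : ℝ) + 1) * (p * √(lp K p : ℝ))
            ≤ (2 * N / (p * p)) * (p * √(lp K p : ℝ)) :=
              mul_le_mul_of_nonneg_right h5 (by positivity)
          _ = (2 * N / (p : ℝ)) * √(lp K p : ℝ) := by field_simp
      have h5 := Finset.sum_le_sum h4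
      rw [Finset.sum_const, Nat.card_Icc, nsmul_eq_mul, Nat.add_sub_cancel] at h5
      have h6 : (K : ℝ) ^ 6 ≤ √(lp K p : ℝ) := by
        refine Real.le_sqrt_of_sq_le ?_
        rw [← pow_mul]
        exact_mod_cast hl2
      have h7 : √(lp K p : ℝ) * √(lp K p : ℝ) = lp K p := Real.mul_self_sqrt hl0.le
      have hsq0 : 0 < √(lp K p : ℝ) := Real.sqrt_pos.2 hl0
      calc (1 / (lp K p : ℝ)) * ∑ s ∈ (Icc 1 (N / p)).filter (fun s => ¬ p ∣ s),
          ∑ n ∈ Ico (p * s) (N + 1), GG h p (lp K p) n s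
          ≤ (1 / (lp K p : ℝ)) * (N * ((2 * N / (p : ℝ)) * √(lp K p : ℝ))) :=
            mul_le_mul_of_nonneg_left (le_trans h3 h5) (by positivity)
        _ = (1 / (p : ℝ)) * ((N : ℝ) ^ 2 * (2 * (√(lp K p : ℝ) / (lp K p : ℝ)))) := by ring
        _ = (1 / (p : ℝ)) * ((N : ℝ) ^ 2 * (2 / √(lp K p : ℝ))) := by
            have e : √(lp K p : ℝ) / (lp K p : ℝ) = 1 / √(lp K p : ℝ) := by
              rw [div_eq_div_iff hl0.ne' hsq0.ne', h7, one_mul]
            rw [e]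
            ring
        _ ≤ (1 / (p : ℝ)) * ((N : ℝ) ^ 2 * (2 / K ^ 6)) := by
            refine mul_le_mul_of_nonneg_left ?_ (by positivity)
            refine mul_le_mul_of_nonneg_left ?_ (by positivity)
            exact div_le_div_of_nonneg_left (by norm_num) (by positivity) h6
    refine le_trans (Finset.sum_le_sum h1) ?_
    rw [← Finset.sum_mul, ← hEdef]
    exact le_of_eq (by ring)
  rw [p3]
  calc _ ≤ (N : ℝ) ^ 2 * (3 * E / (E - k) ^ 2) + (N : ℝ) ^ 2 * (E * (3 + Real.log N) / K ^ 12)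
        + (N : ℝ) ^ 2 * (4 / 2 ^ k) + (N : ℝ) ^ 2 * (2 * E / K ^ 6) := by linarith
    _ = _ := by ring

end Pool.Agent.Work.MP_17736e_nt
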