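import Mathlib
import Pool.Agent.Work.MP_17736e_nt.Main

namespace Pool.Agent.Work.MP_17736e_nt

open Finset Filter Topology

/-- the scale parameter -/
def KN (N : ℕ) : ℕ := Nat.sqrt (Nat.sqrt (Nat.log 4 N / 2))

theorem KN_pow_le (N : ℕ) : (KN N) ^ 4 ≤ Nat.log 4 N / 2 := by
  unfold KN
  set x := Nat.log 4 N / 2
  have h1 : Nat.sqrt x * Nat.sqrt x ≤ x := Nat.sqrt_le x
  have h2 : Nat.sqrt (Nat.sqrt x) * Nat.sqrt (Nat.sqrt x) ≤ Nat.sqrt x := Nat.sqrt_le _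
  calc (Nat.sqrt (Nat.sqrt x)) ^ 4 = (Nat.sqrt (Nat.sqrt x) * Nat.sqrt (Nat.sqrt x)) *
        (Nat.sqrt (Nat.sqrt x) * Nat.sqrt (Nat.sqrt x)) := by ring
    _ ≤ Nat.sqrt x * Nat.sqrt x := Nat.mul_le_mul h2 h2
    _ ≤ x := h1

theorem lt_KN_pow (N : ℕ) : Nat.log 4 N / 2 < (KN N + 1) ^ 4 := by
  unfold KN
  set x := Nat.log 4 N / 2
  have h1 : x < (Nat.sqrt x + 1) * (Nat.sqrt x + 1) := Nat.lt_succ_sqrt x
  have h2 : Nat.sqrt x < (Nat.sqrt (Nat.sqrt x) + 1) * (Nat.sqrt (Nat.sqrt x) + 1) :=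
    Nat.lt_succ_sqrt _
  calc x < (Nat.sqrt x + 1) * (Nat.sqrt x + 1) := h1
    _ ≤ ((Nat.sqrt (Nat.sqrt x) + 1) * (Nat.sqrt (Nat.sqrt x) + 1)) *
        ((Nat.sqrt (Nat.sqrt x) + 1) * (Nat.sqrt (Nat.sqrt x) + 1)) := Nat.mul_le_mul h2 h2
    _ = _ := by ring

theorem KN_le (N : ℕ) (hN : 1 ≤ N) : 4 ^ (2 * (KN N) ^ 4) ≤ N := by
  have h1 := KN_pow_le N
  have h2 : 2 * (KN N) ^ 4 ≤ Nat.log 4 N := by omega
  exact le_trans (Nat.pow_le_pow_right (by norm_num) h2) (Nat.pow_log_le_self 4 (by omega))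

theorem log_le_KN (N : ℕ) (hN : 1 ≤ N) (hK : 1 ≤ KN N) : Real.log N ≤ 45 * (KN N : ℝ) ^ 4 := by
  have h1 := lt_KN_pow N
  have h2 : Nat.log 4 N + 1 ≤ 2 * (KN N + 1) ^ 4 := by omega
  have h3 : N < 4 ^ (Nat.log 4 N + 1) := Nat.lt_pow_succ_log_self (by norm_num) N
  have h4 : N ≤ 4 ^ (2 * (KN N + 1) ^ 4) :=
    le_trans h3.le (Nat.pow_le_pow_right (by norm_num) h2)
  have h5 : Real.log N ≤ (2 * ((KN N : ℝ) + 1) ^ 4) * Real.log 4 := by
    have h6 : (N : ℝ) ≤ (4 : ℝ) ^ (2 * (KN N + 1) ^ 4) := by exact_mod_cast h4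
    have h7 := Real.log_le_log (by exact_mod_cast hN) h6
    rw [Real.log_pow] at h7
    push_cast at h7
    exact h7
  have hlog4 : Real.log 4 ≤ 1.4 := by
    have hlog2' : Real.log 2 < 0.6931471808 := Real.log_two_lt_d9
    have : Real.log 4 = 2 * Real.log 2 := by
      rw [show (4 : ℝ) = 2 ^ 2 by norm_num, Real.log_pow]; norm_num
    linarith
  have hlog40 : 0 ≤ Real.log 4 := Real.log_nonneg (by norm_num)
  have hK' : (1 : ℝ) ≤ KN N := by exact_mod_cast hK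
  have h8 : ((KN N : ℝ) + 1) ^ 4 ≤ 16 * (KN N : ℝ) ^ 4 := by
    have : ((KN N : ℝ) + 1) ≤ 2 * (KN N : ℝ) := by linarith
    calc ((KN N : ℝ) + 1) ^ 4 ≤ (2 * (KN N : ℝ)) ^ 4 := pow_le_pow_left₀ (by positivity) this 4
      _ = 16 * (KN N : ℝ) ^ 4 := by ring
  calc Real.log N ≤ (2 * ((KN N : ℝ) + 1) ^ 4) * Real.log 4 := h5
    _ ≤ (2 * (16 * (KN N : ℝ) ^ 4)) * 1.4 := by
        refine mul_le_mul (by linarith) hlog4 hlog40 (by positivity)
    _ ≤ 45 * (KN N : ℝ) ^ 4 := by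
        have : (0 : ℝ) ≤ (KN N : ℝ) ^ 4 := by positivity
        linarith

theorem KN_tendsto : Tendsto KN atTop atTop := by
  rw [tendsto_atTop]
  intro b
  filter_upwards [eventually_ge_atTop (4 ^ (2 * b ^ 4))] with N hN
  have h1 : 2 * b ^ 4 ≤ Nat.log 4 N := by
    have hN0 : N ≠ 0 := by
      have : 0 < 4 ^ (2 * b ^ 4) := by positivity
      omega
    exact Nat.le_log_of_pow_le (by norm_num) hN
  have h2 : b ^ 4 ≤ Nat.log 4 N / 2 := by omega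
  unfold KN
  rw [Nat.le_sqrt, Nat.le_sqrt]
  calc b * b * (b * b) = b ^ 4 := by ring
    _ ≤ _ := h2

theorem real_ineq (E k K lg ε X : ℝ) (hε : 0 < ε) (hk : 0 ≤ k) (hE1 : 2 * k + 1 < E)
    (hE2 : 96 / ε < E) (hK : 1 ≤ K) (hEup : E ≤ 3 * K ^ 4) (hlg0 : 0 ≤ lg) (hlg : lg ≤ 45 * K ^ 4)
    (a4 : 144 / K ^ 4 < ε / 8) (a5 : 6 / K ^ 2 < ε / 8) (hX : X ≤ ε / 4) :
    3 * E / (E - k) ^ 2 + E * (3 + lg) / K ^ 12 + X + 2 * E / K ^ 6 < ε := by
  have hE0 : 0 < E := by linarith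
  have hK4 : (1 : ℝ) ≤ K ^ 4 := one_le_pow₀ hK
  have b1 : 3 * E / (E - k) ^ 2 < ε / 8 := by
    have h1 : E / 2 ≤ E - k := by linarith
    have h2 : (E / 2) ^ 2 ≤ (E - k) ^ 2 := pow_le_pow_left₀ (by positivity) h1 2
    calc 3 * E / (E - k) ^ 2 ≤ 3 * E / (E / 2) ^ 2 :=
          div_le_div_of_nonneg_left (by positivity) (by positivity) h2
      _ = 12 / E := by field_simp; norm_num
      _ < ε / 8 := by
          rw [div_lt_iff₀ hE0]
          rw [div_lt_iff₀ hε] at hE2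
          linarith
  have b2 : E * (3 + lg) / K ^ 12 < ε / 8 := by
    have h1 : E * (3 + lg) ≤ (3 * K ^ 4) * (48 * K ^ 4) := by
      refine mul_le_mul hEup ?_ (by positivity) (by positivity)
      linarith
    calc E * (3 + lg) / K ^ 12 ≤ (3 * K ^ 4) * (48 * K ^ 4) / K ^ 12 :=
          div_le_div_of_nonneg_right h1 (by positivity)
      _ = 144 / K ^ 4 := by
          rw [div_eq_div_iff (by positivity) (by positivity)]; ring
      _ < ε / 8 := a4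
  have b3 : 2 * E / K ^ 6 < ε / 8 := by
    calc 2 * E / K ^ 6 ≤ 2 * (3 * K ^ 4) / K ^ 6 :=
          div_le_div_of_nonneg_right (by linarith) (by positivity)
      _ = 6 / K ^ 2 := by
          rw [div_eq_div_iff (by positivity) (by positivity)]; ring
      _ < ε / 8 := a5
  linarith

theorem expo_small (h : ℤ) (hh : h ≠ 0) :
    Tendsto (fun N : ℕ => (∑ m ∈ Icc 1 N, SS h N m) / (N : ℝ) ^ 2) atTop (𝓝 0) := by
  rw [Metric.tendsto_atTop]
  intro ε hε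
  -- choose k
  obtain ⟨k0, hk0⟩ := exists_pow_lt_of_lt_one (by positivity : (0 : ℝ) < ε / 16)
    (by norm_num : (1 / 2 : ℝ) < 1)
  set k := k0 + 1 with hk
  have hk4 : 4 / (2 : ℝ) ^ k ≤ ε / 4 := by
    have h1 : 4 / (2 : ℝ) ^ k = 2 * (1 / 2) ^ k0 := by
      rw [hk, pow_succ, one_div, inv_pow]; field_simp; norm_num
    rw [h1]; linarith
  set EK : ℕ → ℝ := fun K => ∑ p ∈ PK K, (1 / (p : ℝ)) with hEK
  -- conditions on K
  have c1 : ∀ᶠ K : ℕ in atTop, max (2 * (k : ℝ) + 1) (96 / ε) < EK K :=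
    EK_tendsto.eventually_gt_atTop _
  have c2 : ∀ᶠ K : ℕ in atTop, 1 ≤ K := eventually_ge_atTop 1
  have c3 : ∀ᶠ K : ℕ in atTop, |h| < 4 ^ (K ^ 3) := by
    filter_upwards [eventually_ge_atTop (h.natAbs + 1)] with K hK
    have h1 : h.natAbs < K ^ 3 := by
      have : K ≤ K ^ 3 := Nat.le_self_pow (by norm_num) K
      omega
    have h2 : K ^ 3 < 4 ^ (K ^ 3) := Nat.lt_pow_self (by norm_num)
    have h3 : (h.natAbs : ℤ) < ((4 ^ (K ^ 3) : ℕ) : ℤ) := by exact_mod_cast (by omega)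
    rw [Int.natCast_natAbs] at h3
    exact_mod_cast h3
  have c4 : ∀ᶠ K : ℕ in atTop, 144 / (K : ℝ) ^ 4 < ε / 8 := by
    have : Tendsto (fun K : ℕ => 144 / (K : ℝ) ^ 4) atTop (𝓝 0) :=
      Tendsto.const_div_atTop ((tendsto_pow_atTop (by norm_num)).comp
        tendsto_natCast_atTop_atTop) _
    exact this.eventually_lt_const (by positivity)
  have c5 : ∀ᶠ K : ℕ in atTop, 6 / (K : ℝ) ^ 2 < ε / 8 := by
    have : Tendsto (fun K : ℕ => 6 / (K : ℝ) ^ 2) atTop (𝓝 0) :=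
      Tendsto.const_div_atTop ((tendsto_pow_atTop (by norm_num)).comp
        tendsto_natCast_atTop_atTop) _
    exact this.eventually_lt_const (by positivity)
  have call := KN_tendsto.eventually (c1.and (c2.and (c3.and (c4.and c5))))
  obtain ⟨N0, hN0⟩ := eventually_atTop.1 (call.and (eventually_ge_atTop 1))
  refine ⟨N0, fun N hN => ?_⟩
  obtain ⟨⟨a1, a2, a3, a4, a5⟩, hN1⟩ := hN0 N hN
  set K := KN N with hKdef
  have hNR : (0 : ℝ) < N := by exact_mod_cast hN1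
  have hE1 : 2 * (k : ℝ) + 1 < EK K := lt_of_le_of_lt (le_max_left _ _) a1
  have hE2 : 96 / ε < EK K := lt_of_le_of_lt (le_max_right _ _) a1
  have hkR : (0 : ℝ) ≤ k := Nat.cast_nonneg k
  have hE0 : 0 < EK K := by linarith
  have hmain := main_bound h K k N a2 (by omega) (KN_le N hN1) hh a3 (by
    have : (k : ℝ) < EK K := by linarith
    exact this)
  have hEKval : ∑ p ∈ PK K, (1 / (p : ℝ)) = EK K := rfl
  rw [hEKval] at hmain
  have hKR : (1 : ℝ) ≤ K := by exact_mod_cast a2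
  have hEup : EK K ≤ 3 * (K : ℝ) ^ 4 := by
    have h0 : EK K ≤ 1 + (K : ℝ) ^ 4 * Real.log 4 := EK_upper K
    have hK4 : (1 : ℝ) ≤ (K : ℝ) ^ 4 := one_le_pow₀ hKR
    have hlog4 : Real.log 4 ≤ 1.4 := by
      have hlog2' : Real.log 2 < 0.6931471808 := Real.log_two_lt_d9
      have : Real.log 4 = 2 * Real.log 2 := by
        rw [show (4 : ℝ) = 2 ^ 2 by norm_num, Real.log_pow]; norm_num
      linarith
    have h2 : (K : ℝ) ^ 4 * Real.log 4 ≤ (K : ℝ) ^ 4 * 1.4 :=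
      mul_le_mul_of_nonneg_left hlog4 (by linarith)
    linarith
  have hlog := log_le_KN N hN1 a2
  rw [← hKdef] at hlog
  have hfin := real_ineq (EK K) k K (Real.log N) ε (4 / 2 ^ k) hε hkR hE1 hE2 hKR hEup
    (Real.log_natCast_nonneg N) hlog a4 a5 hk4
  have hnn : 0 ≤ (∑ m ∈ Icc 1 N, SS h N m) / (N : ℝ) ^ 2 :=
    div_nonneg (Finset.sum_nonneg fun m _ => SS_nonneg h N m) (by positivity)
  rw [Real.dist_eq, sub_zero, abs_of_nonneg hnn, div_lt_iff₀ (by positivity)]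
  calc ∑ m ∈ Icc 1 N, SS h N m ≤ _ := hmain
    _ < (N : ℝ) ^ 2 * ε := mul_lt_mul_of_pos_left hfin (by positivity)
    _ = ε * (N : ℝ) ^ 2 := by ring

end Pool.Agent.Work.MP_17736e_nt
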