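import Mathlib
import Pool.Agent.Work.MP_17736e_nt.Asymp

namespace Pool.Agent.Work.MP_17736e_nt

open Finset Filter Topology

theorem sum_lin (c : ℝ) (M : ℕ) : ∑ m ∈ Icc 1 M, (m : ℝ) * (c - m)
    = c * (M * (M + 1)) / 2 - M * (M + 1) * (2 * M + 1) / 6 := by
  induction M with
  | zero => simp
  | succ M ih =>
    rw [Finset.sum_Icc_succ_top (by omega), ih]
    push_cast
    ring

theorem sum_weight (N : ℕ) : ∑ m ∈ Icc 1 N, (m : ℝ) * ((N : ℝ) + 1 - m)
    = N * (N + 1) * (N + 2) / 6 := by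
  rw [sum_lin]; ring

/-- weighted average of `f` over the points `2 ^ n / m`, `1 ≤ m ≤ n ≤ N` -/
noncomputable def mu (N : ℕ) (f : AddCircle (1 : ℝ) → ℂ) : ℂ :=
  (∑ m ∈ Icc 1 N, (m : ℂ) * ∑ n ∈ Ico m (N + 1), f (((2 : ℝ) ^ n / m : ℝ) : AddCircle (1 : ℝ)))
    / (N : ℂ) ^ 3

theorem mu_norm_le (N : ℕ) (f : AddCircle (1 : ℝ) → ℂ) (C : ℝ) (hC : 0 ≤ C)
    (hf : ∀ x, ‖f x‖ ≤ C) : ‖mu N f‖ ≤ C := by
  rcases Nat.eq_zero_or_pos N with h0 | h0
  · subst h0; simp [mu, hC]
  · have hN : (0 : ℝ) < N := by exact_mod_cast h0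
    unfold mu
    rw [norm_div, norm_pow, Complex.norm_natCast, div_le_iff₀ (by positivity)]
    refine le_trans (norm_sum_le _ _) ?_
    have h1 : ∀ m ∈ Icc 1 N, ‖(m : ℂ) * ∑ n ∈ Ico m (N + 1),
        f (((2 : ℝ) ^ n / m : ℝ) : AddCircle (1 : ℝ))‖ ≤ N * (N * C) := by
      intro m hm
      rw [Finset.mem_Icc] at hm
      rw [norm_mul, Complex.norm_natCast]
      have hmN : (m : ℝ) ≤ N := by exact_mod_cast hm.2
      refine mul_le_mul hmN ?_ (norm_nonneg _) hN.le
      refine le_trans (norm_sum_le _ _) ?_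
      refine le_trans (Finset.sum_le_sum fun n _ => hf _) ?_
      rw [Finset.sum_const, Nat.card_Ico, nsmul_eq_mul]
      refine mul_le_mul_of_nonneg_right ?_ hC
      have : N + 1 - m ≤ N := by omega
      exact_mod_cast this
    refine le_trans (Finset.sum_le_sum h1) ?_
    rw [Finset.sum_const, Nat.card_Icc, nsmul_eq_mul, Nat.add_sub_cancel]
    exact le_of_eq (by ring)

theorem mu_add (N : ℕ) (f g : AddCircle (1 : ℝ) → ℂ) : mu N (f + g) = mu N f + mu N g := by
  unfold mu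
  rw [← add_div, ← Finset.sum_add_distrib]
  congr 1
  refine Finset.sum_congr rfl fun m _ => ?_
  rw [← mul_add, ← Finset.sum_add_distrib]
  rfl

theorem mu_smul (N : ℕ) (c : ℂ) (f : AddCircle (1 : ℝ) → ℂ) : mu N (c • f) = c * mu N f := by
  unfold mu
  rw [mul_div_assoc', Finset.mul_sum]
  congr 1
  refine Finset.sum_congr rfl fun m _ => ?_
  simp only [Pi.smul_apply, smul_eq_mul, ← Finset.mul_sum]
  ring

theorem fourier_point (h : ℤ) (m n : ℕ) :
    fourier (T := 1) h (((2 : ℝ) ^ n / m : ℝ) : AddCircle (1 : ℝ)) = ee h m (2 ^ n) := by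
  rw [fourier_coe_apply]
  unfold ee
  congr 1
  push_cast
  ring

theorem mu_fourier (h : ℤ) (hh : h ≠ 0) :
    Tendsto (fun N => mu N (fourier (T := 1) h)) atTop (𝓝 0) := by
  refine squeeze_zero_norm ?_ (expo_small h hh)
  intro N
  rcases Nat.eq_zero_or_pos N with h0 | h0
  · subst h0; simp [mu]
  · have hN : (0 : ℝ) < N := by exact_mod_cast h0
    unfold mu
    rw [norm_div, norm_pow, Complex.norm_natCast, div_le_div_iff₀ (by positivity) (by positivity)]
    have h1 : ‖∑ m ∈ Icc 1 N, (m : ℂ) * ∑ n ∈ Ico m (N + 1),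
        (fourier (T := 1) h) (((2 : ℝ) ^ n / m : ℝ) : AddCircle (1 : ℝ))‖
        ≤ N * ∑ m ∈ Icc 1 N, SS h N m := by
      refine le_trans (norm_sum_le _ _) ?_
      rw [Finset.mul_sum]
      refine Finset.sum_le_sum fun m hm => ?_
      rw [Finset.mem_Icc] at hm
      rw [norm_mul, Complex.norm_natCast]
      have hmN : (m : ℝ) ≤ N := by exact_mod_cast hm.2
      simp_rw [fourier_point]
      exact mul_le_mul_of_nonneg_right hmN (norm_nonneg _)
    calc _ ≤ (N * ∑ m ∈ Icc 1 N, SS h N m) * (N : ℝ) ^ 2 :=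
          mul_le_mul_of_nonneg_right h1 (by positivity)
      _ = _ := by ring

theorem mu_one : Tendsto (fun N => mu N (fourier (T := 1) 0)) atTop (𝓝 (1 / 6)) := by
  have h1 : ∀ N : ℕ, mu N (fourier (T := 1) 0)
      = (((N : ℝ) * (N + 1) * (N + 2) / 6 / (N : ℝ) ^ 3 : ℝ) : ℂ) := by
    intro N
    rw [← sum_weight]
    unfold mu
    push_cast
    congr 1
    refine Finset.sum_congr rfl fun m hm => ?_
    rw [Finset.mem_Icc] at hm
    simp only [fourier_zero, Finset.sum_const, Nat.card_Ico, nsmul_eq_mul, mul_one]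
    rw [Nat.cast_sub (by omega)]
    push_cast
    ring
  simp_rw [h1]
  have h2 : Tendsto (fun N : ℕ => (N : ℝ) * (N + 1) * (N + 2) / 6 / (N : ℝ) ^ 3) atTop
      (𝓝 (1 / 6)) := by
    have e : ∀ᶠ N : ℕ in atTop, (1 + 1 / (N : ℝ)) * (1 + 2 * (1 / (N : ℝ))) / 6
        = (N : ℝ) * (N + 1) * (N + 2) / 6 / (N : ℝ) ^ 3 := by
      filter_upwards [eventually_ge_atTop 1] with N hN
      have : (0 : ℝ) < N := by exact_mod_cast hN
      field_simp
    refine Tendsto.congr' e ?_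
    have h3 : Tendsto (fun N : ℕ => 1 / (N : ℝ)) atTop (𝓝 0) := tendsto_one_div_atTop_nhds_zero_nat
    have h4 : Tendsto (fun N : ℕ => (1 + 1 / (N : ℝ)) * (1 + 2 * (1 / (N : ℝ))) / 6) atTop
        (𝓝 ((1 + 0) * (1 + 2 * 0) / 6)) :=
      ((tendsto_const_nhds.add h3).mul (tendsto_const_nhds.add (h3.const_mul 2))).div_const 6
    simpa using h4
  have h5 := (Complex.continuous_ofReal.tendsto (1 / 6 : ℝ)).comp h2
  have h6 : ((1 / 6 : ℝ) : ℂ) = 1 / 6 := by push_cast; ring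
  rw [h6] at h5
  exact h5

theorem coeff_zero_norm_le (f : C(AddCircle (1 : ℝ), ℂ)) : ‖fourierCoeff (T := 1) f 0‖ ≤ ‖f‖ := by
  unfold fourierCoeff
  simp only [neg_zero, fourier_zero, one_smul]
  refine le_trans (MeasureTheory.norm_integral_le_of_norm_le_const
    (Filter.Eventually.of_forall fun x => f.norm_coe_le_norm x)) ?_
  simp

theorem cont_integrable (f : C(AddCircle (1 : ℝ), ℂ)) :
    MeasureTheory.Integrable f (AddCircle.haarAddCircle (T := (1 : ℝ))) :=
  f.continuous.integrable_of_hasCompactSupport (HasCompactSupport.of_compactSpace f)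

theorem coeff_add (f g : C(AddCircle (1 : ℝ), ℂ)) :
    fourierCoeff (T := 1) (f + g : AddCircle (1 : ℝ) → ℂ) 0
      = fourierCoeff (T := 1) f 0 + fourierCoeff (T := 1) g 0 := by
  rw [fourierCoeff.add (cont_integrable f) (cont_integrable g)]
  rfl

/-- the set of good test functions -/
def Good (f : C(AddCircle (1 : ℝ), ℂ)) : Prop :=
  Tendsto (fun N => mu N f) atTop (𝓝 ((1 / 6) * fourierCoeff (T := 1) f 0))

theorem good_fourier (h : ℤ) : Good (fourier (T := 1) h) := by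
  unfold Good
  rw [fourierCoeff_fourier]
  by_cases hh : h = 0
  · subst hh
    simp only [Pi.single_eq_same, mul_one]
    exact mu_one
  · have : (Pi.single h (1 : ℂ) : ℤ → ℂ) 0 = 0 := by
      rw [Pi.single_apply, if_neg (Ne.symm hh)]
    rw [this, mul_zero]
    exact mu_fourier h hh

theorem good_add (f g : C(AddCircle (1 : ℝ), ℂ)) (hf : Good f) (hg : Good g) : Good (f + g) := by
  unfold Good at *
  rw [ContinuousMap.coe_add, coeff_add, mul_add]
  simp_rw [mu_add]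
  exact hf.add hg

theorem good_smul (c : ℂ) (f : C(AddCircle (1 : ℝ), ℂ)) (hf : Good f) : Good (c • f) := by
  unfold Good at *
  rw [ContinuousMap.coe_smul, fourierCoeff.const_smul]
  simp_rw [mu_smul]
  have : (1 / 6 : ℂ) * c • fourierCoeff (T := 1) f 0
      = c * ((1 / 6) * fourierCoeff (T := 1) f 0) := by
    rw [smul_eq_mul]; ring
  rw [this]
  exact hf.const_mul c

theorem good_span (f : C(AddCircle (1 : ℝ), ℂ))
    (hf : f ∈ Submodule.span ℂ (Set.range (fourier (T := (1 : ℝ))))) : Good f := by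
  induction hf using Submodule.span_induction with
  | mem x hx => obtain ⟨h, rfl⟩ := hx; exact good_fourier h
  | zero =>
    have h0 := good_smul 0 _ (good_fourier 0)
    have e : (0 : ℂ) • (fourier (T := (1 : ℝ)) 0) = 0 := by ext x; simp
    rwa [e] at h0
  | add x y _ _ hx hy => exact good_add x y hx hy
  | smul c x _ hx => exact good_smul c x hx

/-- Equidistribution of the points `2 ^ n / m` on average. -/
theorem good_all (f : C(AddCircle (1 : ℝ), ℂ)) : Good f := by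
  unfold Good
  rw [Metric.tendsto_atTop]
  intro ε hε
  have hmem : f ∈ closure ((Submodule.span ℂ (Set.range (fourier (T := (1 : ℝ)))) :
      Submodule ℂ C(AddCircle (1 : ℝ), ℂ)) : Set C(AddCircle (1 : ℝ), ℂ)) := by
    have := span_fourier_closure_eq_top (T := (1 : ℝ))
    rw [← Submodule.topologicalClosure_coe, this]
    exact Submodule.mem_top
  obtain ⟨g, hg, hfg⟩ := Metric.mem_closure_iff.1 hmem (ε / 4) (by positivity)
  have hgood := good_span g hg
  unfold Good at hgood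
  rw [Metric.tendsto_atTop] at hgood
  obtain ⟨N0, hN0⟩ := hgood (ε / 4) (by positivity)
  refine ⟨N0, fun N hN => ?_⟩
  have h1 := hN0 N hN
  have hf : f = g + (f - g) := by abel
  have hnorm : ‖f - g‖ < ε / 4 := by rwa [← dist_eq_norm]
  have h2 : mu N f = mu N g + mu N (f - g : C(AddCircle (1 : ℝ), ℂ)) := by
    conv_lhs => rw [hf]
    rw [ContinuousMap.coe_add, mu_add]
  have h3 : fourierCoeff (T := 1) f 0
      = fourierCoeff (T := 1) g 0 + fourierCoeff (T := 1) (f - g : C(AddCircle (1 : ℝ), ℂ)) 0 := by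
    conv_lhs => rw [hf]
    rw [ContinuousMap.coe_add, coeff_add]
  have h4 : ‖mu N (f - g : C(AddCircle (1 : ℝ), ℂ))‖ ≤ ε / 4 :=
    mu_norm_le N _ _ (by positivity) (fun x => le_trans ((f - g).norm_coe_le_norm x) hnorm.le)
  have h5 : ‖fourierCoeff (T := 1) (f - g : C(AddCircle (1 : ℝ), ℂ)) 0‖ ≤ ε / 4 :=
    le_trans (coeff_zero_norm_le _) hnorm.le
  rw [h2, h3, dist_eq_norm]
  rw [dist_eq_norm] at h1
  have e : mu N g + mu N (f - g : C(AddCircle (1 : ℝ), ℂ)) - 1 / 6 * (fourierCoeff (T := 1) g 0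
      + fourierCoeff (T := 1) (f - g : C(AddCircle (1 : ℝ), ℂ)) 0)
      = (mu N g - 1 / 6 * fourierCoeff (T := 1) g 0) + mu N (f - g : C(AddCircle (1 : ℝ), ℂ))
        - 1 / 6 * fourierCoeff (T := 1) (f - g : C(AddCircle (1 : ℝ), ℂ)) 0 := by ring
  rw [e]
  have h6 : ‖(1 / 6 : ℂ) * fourierCoeff (T := 1) (f - g : C(AddCircle (1 : ℝ), ℂ)) 0‖ ≤ ε / 4 := by
    rw [norm_mul]
    have : ‖(1 / 6 : ℂ)‖ ≤ 1 := by norm_num
    calc _ ≤ 1 * (ε / 4) := mul_le_mul this h5 (norm_nonneg _) (by norm_num)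
      _ = ε / 4 := one_mul _
  calc _ ≤ ‖(mu N g - 1 / 6 * fourierCoeff (T := 1) g 0)
        + mu N (f - g : C(AddCircle (1 : ℝ), ℂ))‖
        + ‖(1 / 6 : ℂ) * fourierCoeff (T := 1) (f - g : C(AddCircle (1 : ℝ), ℂ)) 0‖ :=
        norm_sub_le _ _
    _ ≤ ‖mu N g - 1 / 6 * fourierCoeff (T := 1) g 0‖
        + ‖mu N (f - g : C(AddCircle (1 : ℝ), ℂ))‖ + ε / 4 :=
        add_le_add (norm_add_le _ _) h6
    _ < ε / 4 + ε / 4 + ε / 4 := by linarith
    _ < ε := by linarith

end Pool.Agent.Work.MP_17736e_nt
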