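import Mathlib
import Pool.Agent.Work.MP_17736e_nt.Equi

namespace Pool.Agent.Work.MP_17736e_nt

open Finset Filter Topology

/-- real weighted averages -/
noncomputable def muR (N : ℕ) (φ : ℝ → ℝ) : ℝ :=
  (∑ m ∈ Icc 1 N, (m : ℝ) * ∑ n ∈ Ico m (N + 1), φ (((2 ^ n % m : ℕ) : ℝ) / m)) / (N : ℝ) ^ 3

theorem coe_fract (x : ℝ) : ((x : ℝ) : AddCircle (1 : ℝ)) = ((Int.fract x : ℝ) : AddCircle (1 : ℝ)) := by
  rw [← sub_eq_zero, ← AddCircle.coe_sub, AddCircle.coe_eq_zero_iff]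
  refine ⟨⌊x⌋, ?_⟩
  rw [Int.self_sub_fract]
  simp

theorem lift_point (φ : ℝ → ℝ) (m n : ℕ) (hm : 0 < m) :
    AddCircle.liftIco (1 : ℝ) 0 (fun y => ((φ y : ℝ) : ℂ))
      (((2 : ℝ) ^ n / m : ℝ) : AddCircle (1 : ℝ)) = ((φ (((2 ^ n % m : ℕ) : ℝ) / m) : ℝ) : ℂ) := by
  rw [coe_fract]
  have h1 : Int.fract ((2 : ℝ) ^ n / m) = ((2 ^ n % m : ℕ) : ℝ) / m := by
    have := Int.fract_div_natCast_eq_div_natCast_mod (k := ℝ) (m := 2 ^ n) (n := m)
    push_cast at this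
    exact this
  rw [h1]
  rw [AddCircle.liftIco_zero_coe_apply]
  have hm' : (0 : ℝ) < m := by exact_mod_cast hm
  refine ⟨by positivity, ?_⟩
  rw [div_lt_one hm']
  exact_mod_cast Nat.mod_lt _ hm

theorem muR_tendsto (φ : ℝ → ℝ) (hc : Continuous φ) (h01 : φ 0 = φ 1) :
    Tendsto (fun N => muR N φ) atTop (𝓝 ((1 / 6) * ∫ x in (0 : ℝ)..1, φ x)) := by
  let F : C(AddCircle (1 : ℝ), ℂ) :=
    ⟨AddCircle.liftIco (1 : ℝ) 0 (fun y => ((φ y : ℝ) : ℂ)),
      AddCircle.liftIco_zero_continuous (by simp [h01])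
        (Complex.continuous_ofReal.comp hc).continuousOn⟩
  have hF := good_all F
  unfold Good at hF
  have h1 : ∀ N, mu N F = ((muR N φ : ℝ) : ℂ) := by
    intro N
    unfold mu muR
    push_cast
    congr 1
    refine Finset.sum_congr rfl fun m hm => ?_
    rw [Finset.mem_Icc] at hm
    congr 1
    refine Finset.sum_congr rfl fun n _ => ?_
    have := lift_point φ m n (by omega)
    push_cast at this
    exact this
  have h2 : fourierCoeff (T := 1) F 0 = ((∫ x in (0 : ℝ)..1, φ x : ℝ) : ℂ) := by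
    have h3 : fourierCoeff (T := 1) F 0
        = fourierCoeff (T := 1) (AddCircle.liftIco (1 : ℝ) 0 (fun y => ((φ y : ℝ) : ℂ))) 0 := rfl
    rw [h3, fourierCoeff_liftIco_eq, fourierCoeffOn_eq_integral]
    simp only [neg_zero, fourier_zero, one_smul, zero_add, sub_zero, div_one]
    exact intervalIntegral.integral_ofReal
  rw [h2] at hF
  simp_rw [h1] at hF
  have h4 : (1 / 6 : ℂ) * ((∫ x in (0 : ℝ)..1, φ x : ℝ) : ℂ)
      = (((1 / 6) * ∫ x in (0 : ℝ)..1, φ x : ℝ) : ℂ) := by push_cast; ring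
  rw [h4] at hF
  have h5 := (Complex.continuous_re.tendsto _).comp hF
  rw [Complex.ofReal_re] at h5
  exact h5

/-- the sum of remainders -/
def S (n k : ℕ) : ℕ := ∑ i ∈ Finset.Icc 1 k, n % i

theorem sum_S (N : ℕ) : ∑ n ∈ Icc 1 N, ((S (2 ^ n) n : ℕ) : ℝ)
    = ∑ m ∈ Icc 1 N, (m : ℝ) * ∑ n ∈ Ico m (N + 1), (((2 ^ n % m : ℕ) : ℝ) / m) := by
  have h1 : ∀ m ∈ Icc 1 N, (m : ℝ) * ∑ n ∈ Ico m (N + 1), (((2 ^ n % m : ℕ) : ℝ) / m)
      = ∑ n ∈ Icc 1 N, if m ≤ n then ((2 ^ n % m : ℕ) : ℝ) else 0 := by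
    intro m hm
    rw [Finset.mem_Icc] at hm
    have hm0 : (m : ℝ) ≠ 0 := by
      have : m ≠ 0 := by omega
      exact_mod_cast this
    rw [Finset.mul_sum, ← Finset.sum_filter]
    refine Finset.sum_congr ?_ ?_
    · ext n
      simp only [Finset.mem_Ico, Finset.mem_filter, Finset.mem_Icc]
      omega
    · intro n _
      field_simp
  rw [Finset.sum_congr rfl h1, Finset.sum_comm]
  refine Finset.sum_congr rfl fun n hn => ?_
  rw [Finset.mem_Icc] at hn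
  unfold S
  push_cast
  rw [← Finset.sum_filter]
  refine Finset.sum_congr ?_ (fun _ _ => rfl)
  ext m
  simp only [Finset.mem_filter, Finset.mem_Icc]
  omega

theorem muR_mono (N : ℕ) (φ ψ : ℝ → ℝ) (h : ∀ y, 0 ≤ y → y < 1 → φ y ≤ ψ y) :
    muR N φ ≤ muR N ψ := by
  unfold muR
  refine div_le_div_of_nonneg_right ?_ (by positivity)
  refine Finset.sum_le_sum fun m hm => ?_
  rw [Finset.mem_Icc] at hm
  have hm' : (0 : ℝ) < m := by exact_mod_cast (by omega : 0 < m)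
  refine mul_le_mul_of_nonneg_left (Finset.sum_le_sum fun n _ => ?_) hm'.le
  refine h _ (by positivity) ?_
  rw [div_lt_one hm']
  exact_mod_cast Nat.mod_lt _ (by omega)

/-- On average `S(2^n, n)` is `n^2 / 4`. -/
theorem mean_S : Tendsto (fun N : ℕ => (∑ n ∈ Icc 1 N, ((S (2 ^ n) n : ℕ) : ℝ)) / (N : ℝ) ^ 3)
    atTop (𝓝 (1 / 12)) := by
  have h0 : ∀ N : ℕ, (∑ n ∈ Icc 1 N, ((S (2 ^ n) n : ℕ) : ℝ)) / (N : ℝ) ^ 3 = muR N (fun y => y) := by
    intro N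
    rw [sum_S]
    rfl
  simp_rw [h0]
  rw [Metric.tendsto_atTop]
  intro ε hε
  obtain ⟨M, hM⟩ := exists_nat_gt (1 / ε)
  have hM0 : (0 : ℝ) < M := lt_trans (by positivity) hM
  have hMpos : 0 < M := by exact_mod_cast hM0
  have hlow := muR_tendsto (fun y => y - y ^ M) (by fun_prop) (by
    simp only [one_pow, sub_self, sub_eq_zero]
    rw [zero_pow hMpos.ne'])
  have hup := muR_tendsto (fun y => y + (1 - y) ^ M) (by fun_prop) (by
    simp only [sub_zero, one_pow, sub_self, zero_add]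
    rw [zero_pow hMpos.ne', add_zero])
  have hi1 : ∫ x in (0 : ℝ)..1, (x - x ^ M) = 1 / 2 - 1 / (M + 1) := by
    rw [intervalIntegral.integral_sub (by simp) (by simp)]
    simp
  have hi2 : ∫ x in (0 : ℝ)..1, (x + (1 - x) ^ M) = 1 / 2 + 1 / (M + 1) := by
    rw [intervalIntegral.integral_add (by simp) (by
      apply Continuous.intervalIntegrable; fun_prop)]
    rw [intervalIntegral.integral_comp_sub_left (fun x => x ^ M) 1]
    simp
  rw [hi1] at hlow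
  rw [hi2] at hup
  have hMe : 1 / ((M : ℝ) + 1) < ε := by
    rw [div_lt_iff₀ (by positivity)]
    rw [div_lt_iff₀ hε] at hM
    nlinarith
  have e1 : ∀ᶠ N in atTop, 1 / 12 - ε < muR N (fun y => y - y ^ M) := by
    refine hlow.eventually_const_lt ?_
    have : (0 : ℝ) < 1 / ((M : ℝ) + 1) := by positivity
    linarith
  have e2 : ∀ᶠ N in atTop, muR N (fun y => y + (1 - y) ^ M) < 1 / 12 + ε := by
    refine hup.eventually_lt_const ?_
    have : (0 : ℝ) < 1 / ((M : ℝ) + 1) := by positivity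
    linarith
  obtain ⟨N0, hN0⟩ := eventually_atTop.1 (e1.and e2)
  refine ⟨N0, fun N hN => ?_⟩
  obtain ⟨a1, a2⟩ := hN0 N hN
  have b1 : muR N (fun y => y - y ^ M) ≤ muR N (fun y => y) :=
    muR_mono N _ _ (fun y hy _ => by have : 0 ≤ y ^ M := pow_nonneg hy M; linarith)
  have b2 : muR N (fun y => y) ≤ muR N (fun y => y + (1 - y) ^ M) :=
    muR_mono N _ _ (fun y _ hy => by
      have : 0 ≤ (1 - y) ^ M := pow_nonneg (by linarith) M
      linarith)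
  rw [Real.dist_eq, abs_lt]
  constructor <;> linarith

/-- If `S(2^n,n)/n^2` converges then its limit is `1/4`. -/
theorem limit_unique (c : ℝ)
    (hc : Tendsto (fun n : ℕ => ((S (2 ^ n) n : ℕ) : ℝ) / (n : ℝ) ^ 2) atTop (𝓝 c)) : c = 1 / 4 := by
  set u : ℕ → ℝ := fun n => |((S (2 ^ (n + 1)) (n + 1) : ℕ) : ℝ) / ((n + 1 : ℕ) : ℝ) ^ 2 - c| with hu
  have hu0 : Tendsto u atTop (𝓝 0) := by
    have h1 := (hc.comp (tendsto_add_atTop_nat 1)).sub_const c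
    rw [sub_self] at h1
    have h2 := h1.abs
    rw [abs_zero] at h2
    exact h2
  have hces := hu0.cesaro
  have hsq : Tendsto (fun N : ℕ => (∑ n ∈ Icc 1 N, (n : ℝ) ^ 2) / (N : ℝ) ^ 3) atTop
      (𝓝 (1 / 3)) := by
    have e0 : ∀ N : ℕ, ∑ n ∈ Icc 1 N, (n : ℝ) ^ 2 = N * (N + 1) * (2 * N + 1) / 6 := by
      intro N
      induction N with
      | zero => simp
      | succ N ih => rw [Finset.sum_Icc_succ_top (by omega), ih]; push_cast; ring
    have e : ∀ᶠ N : ℕ in atTop, (1 + 1 / (N : ℝ)) * (2 + (1 / (N : ℝ))) / 6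
        = (∑ n ∈ Icc 1 N, (n : ℝ) ^ 2) / (N : ℝ) ^ 3 := by
      filter_upwards [eventually_ge_atTop 1] with N hN
      have : (0 : ℝ) < N := by exact_mod_cast hN
      rw [e0]
      field_simp
    refine Tendsto.congr' e ?_
    have h3 : Tendsto (fun N : ℕ => 1 / (N : ℝ)) atTop (𝓝 0) := tendsto_one_div_atTop_nhds_zero_nat
    have h4 : Tendsto (fun N : ℕ => (1 + 1 / (N : ℝ)) * (2 + (1 / (N : ℝ))) / 6) atTop
        (𝓝 ((1 + 0) * (2 + 0) / 6)) :=
      ((tendsto_const_nhds.add h3).mul (tendsto_const_nhds.add h3)).div_const 6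
    have h5 : ((1 + 0) * (2 + 0) / 6 : ℝ) = 1 / 3 := by norm_num
    rw [h5] at h4
    exact h4
  have hdiff : Tendsto (fun N : ℕ => (∑ n ∈ Icc 1 N, ((S (2 ^ n) n : ℕ) : ℝ)) / (N : ℝ) ^ 3
      - c * ((∑ n ∈ Icc 1 N, (n : ℝ) ^ 2) / (N : ℝ) ^ 3)) atTop (𝓝 0) := by
    refine squeeze_zero_norm ?_ hces
    intro N
    rcases Nat.eq_zero_or_pos N with h0 | h0
    · subst h0; simp
    · have hN : (0 : ℝ) < N := by exact_mod_cast h0
      have e1 : (∑ n ∈ Icc 1 N, ((S (2 ^ n) n : ℕ) : ℝ)) / (N : ℝ) ^ 3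
          - c * ((∑ n ∈ Icc 1 N, (n : ℝ) ^ 2) / (N : ℝ) ^ 3)
          = (∑ n ∈ Icc 1 N, (((S (2 ^ n) n : ℕ) : ℝ) - c * (n : ℝ) ^ 2)) / (N : ℝ) ^ 3 := by
        rw [Finset.sum_sub_distrib, ← Finset.mul_sum]
        ring
      rw [e1, norm_div, Real.norm_of_nonneg (by positivity : (0 : ℝ) ≤ (N : ℝ) ^ 3),
        div_le_iff₀ (by positivity)]
      have e2 : ‖∑ n ∈ Icc 1 N, (((S (2 ^ n) n : ℕ) : ℝ) - c * (n : ℝ) ^ 2)‖
          ≤ ∑ n ∈ range N, (N : ℝ) ^ 2 * u n := by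
        refine le_trans (norm_sum_le _ _) ?_
        rw [Finset.range_eq_Ico]
        have e3 : Icc 1 N = Ico (0 + 1) (N + 1) := by
          ext x; simp only [Finset.mem_Icc, Finset.mem_Ico]; omega
        rw [e3, ← Finset.sum_Ico_add' _ 0 N 1]
        refine Finset.sum_le_sum fun n hn => ?_
        rw [Finset.mem_Ico] at hn
        have hn1 : (0 : ℝ) < ((n + 1 : ℕ) : ℝ) := by positivity
        have hnN : ((n + 1 : ℕ) : ℝ) ≤ N := by exact_mod_cast hn.2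
        have e4 : ((S (2 ^ (n + 1)) (n + 1) : ℕ) : ℝ) - c * ((n + 1 : ℕ) : ℝ) ^ 2
            = ((n + 1 : ℕ) : ℝ) ^ 2 * (((S (2 ^ (n + 1)) (n + 1) : ℕ) : ℝ) / ((n + 1 : ℕ) : ℝ) ^ 2
              - c) := by
          field_simp
        rw [e4, norm_mul, Real.norm_of_nonneg (by positivity : (0 : ℝ) ≤ ((n + 1 : ℕ) : ℝ) ^ 2),
          Real.norm_eq_abs]
        refine mul_le_mul_of_nonneg_right ?_ (abs_nonneg _)
        exact pow_le_pow_left₀ hn1.le hnN 2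
      refine le_trans e2 (le_of_eq ?_)
      rw [← Finset.mul_sum]
      field_simp
  have h1 := hdiff.add (hsq.const_mul c)
  have h2 : (fun N : ℕ => (∑ n ∈ Icc 1 N, ((S (2 ^ n) n : ℕ) : ℝ)) / (N : ℝ) ^ 3
      - c * ((∑ n ∈ Icc 1 N, (n : ℝ) ^ 2) / (N : ℝ) ^ 3)
      + c * ((∑ n ∈ Icc 1 N, (n : ℝ) ^ 2) / (N : ℝ) ^ 3))
      = fun N : ℕ => (∑ n ∈ Icc 1 N, ((S (2 ^ n) n : ℕ) : ℝ)) / (N : ℝ) ^ 3 := by
    funext N; ring
  rw [h2] at h1
  have h3 := tendsto_nhds_unique mean_S h1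
  linarith

theorem not_tendsto : ¬ Tendsto (fun n : ℕ => ((S (2 ^ n) n : ℕ) : ℝ) / (n : ℝ) ^ 2) atTop
    (𝓝 (1 - Real.pi ^ 2 / 12)) := by
  intro h
  have h1 := limit_unique _ h
  have h2 : Real.pi ^ 2 = 9 := by linarith
  have h3 := Real.pi_gt_three
  nlinarith

end Pool.Agent.Work.MP_17736e_nt
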